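import Pool.Agent.N84.MD.B

/-!
# Hausdorff dimension of the set of the parameters with a bad lattice point near infinitely many of the
values of an expanding family (helper265)
-/

set_option autoImplicit false

namespace Pool.Agent.U265.MS

open Finset Filter Topology
open scoped ENNReal

theorem fam_core {X : Type*} [MetricSpace X] {k : ℕ} (B : ℕ → Set (Fin k → ℤ)) (E : Set X) (F : ℕ → X → Fin k → ℝ)
    (N : ℕ → ℕ) (r lam C : ℕ → ℝ) {D : ℝ} (hD : 0 < D) (n₀ : ℕ)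
    (hr : ∀ n, n₀ ≤ n → 0 ≤ r n) (hlam : ∀ n, n₀ ≤ n → 0 < lam n)
    (hcard : ∀ n, n₀ ≤ n → ∀ T : Finset (Fin k → ℤ), (∀ m ∈ T, (∀ i, |m i| ≤ N n) ∧ m ∈ B n) → (T.card : ℝ) ≤ C n)
    (hN : ∀ n, n₀ ≤ n → ∀ x ∈ E, ∀ i, |F n x i| + r n ≤ N n)
    (hexp : ∀ n, n₀ ≤ n → ∀ x ∈ E, ∀ y ∈ E, ∀ δ : ℝ, 0 ≤ δ → (∀ i, |F n x i - F n y i| ≤ δ) → dist x y ≤ δ / lam n)
    (hsum : Summable fun n => C n * (2 * r n / lam n) ^ D) :
    dimH {x | x ∈ E ∧ ∃ᶠ n : ℕ in atTop, ∃ m : Fin k → ℤ, (∀ i, |(m i : ℝ) - F n x i| ≤ r n) ∧ m ∈ B n} ≤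
      ENNReal.ofReal D := by
  classical
  have hbox : ∀ n, {m : Fin k → ℤ | (∀ i, |m i| ≤ N n) ∧ m ∈ B n}.Finite := by
    intro n
    refine (Finset.finite_toSet (Fintype.piFinset (fun _ : Fin k => Icc (-(N n : ℤ)) (N n)))).subset ?_
    rintro m ⟨hm, -⟩
    rw [mem_coe, Fintype.mem_piFinset]
    intro i
    have := hm i
    rw [abs_le] at this
    rw [mem_Icc]
    exact this
  have hc := Pool.Agent.N84.MD.core (X := X)
    (fun (n : ℕ) (m : Fin k → ℤ) => {x : X | x ∈ E ∧ ∀ i, |(m i : ℝ) - F (n + n₀) x i| ≤ r (n + n₀)}) D hD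
    (fun n => (hbox (n + n₀)).toFinset) (fun n => 2 * r (n + n₀) / lam (n + n₀))
    (fun n => by
      have h1 := hr (n + n₀) (by omega)
      have h2 := hlam (n + n₀) (by omega)
      positivity)
    (fun n m _ => by
      refine Metric.ediam_le fun x hx y hy => ?_
      rw [edist_dist]
      refine ENNReal.ofReal_le_ofReal ?_
      refine hexp (n + n₀) (by omega) x hx.1 y hy.1 (2 * r (n + n₀)) (by
        have := hr (n + n₀) (by omega)
        positivity) (fun j => ?_)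
      have h1 := hx.2 j
      have h2 := hy.2 j
      rw [abs_le] at h1 h2 ⊢
      constructor <;> linarith)
    (by
      have h1 : Summable fun n => C (n + n₀) * (2 * r (n + n₀) / lam (n + n₀)) ^ D :=
        (summable_nat_add_iff (f := fun n => C n * (2 * r n / lam n) ^ D) n₀).2 hsum
      refine Summable.of_nonneg_of_le (fun n => ?_) (fun n => ?_) h1
      · have h2 := hr (n + n₀) (by omega)
        have h3 := hlam (n + n₀) (by omega)
        positivity
      · have h2 := hr (n + n₀) (by omega)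
        have h3 := hlam (n + n₀) (by omega)
        refine mul_le_mul_of_nonneg_right ?_ (by positivity)
        refine hcard (n + n₀) (by omega) _ fun m hm => ?_
        rw [Set.Finite.mem_toFinset] at hm
        exact hm)
  refine (dimH_mono ?_).trans hc
  rintro x ⟨hxE, hx⟩
  rw [Set.mem_ofPred_eq, frequently_atTop]
  intro a
  obtain ⟨n, hn, m, hm1, hm2⟩ := (frequently_atTop.1 hx) (a + n₀)
  refine ⟨n - n₀, by omega, m, ?_, ?_⟩
  · rw [Set.Finite.mem_toFinset]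
    rw [show n - n₀ + n₀ = n by omega]
    refine ⟨fun i => ?_, hm2⟩
    have h1 := hN n (by omega) x hxE i
    have h2 := hm1 i
    have h3 : |(m i : ℝ)| ≤ N n := by
      have h4 : |(m i : ℝ)| ≤ |(m i : ℝ) - F n x i| + |F n x i| := by
        have := abs_add_le ((m i : ℝ) - F n x i) (F n x i)
        rwa [sub_add_cancel] at this
      linarith
    rw [← Int.cast_abs] at h3
    exact_mod_cast h3
  · rw [Set.mem_ofPred_eq, show n - n₀ + n₀ = n by omega]
    exact ⟨hxE, hm1⟩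

/-- the dilates of a vector -/
theorem dil_dim {k : ℕ} (B : ℕ → Set (Fin k → ℤ)) {s τ κ K D : ℝ} (hs : 0 ≤ s) (hκ : κ < 1) (hK : 0 ≤ K) (hD0 : 0 < D)
    (hD : s + τ < D * (1 - κ))
    (hB : ∀ X : ℕ, 1 ≤ X → ∀ T : Finset (Fin k → ℤ), (∀ m ∈ T, (∀ i, |m i| ≤ X) ∧ m ∈ B X) →
      (T.card : ℝ) ≤ K * (X : ℝ) ^ s)
    (w : ℕ → ℝ) (hw : ∀ n, 1 ≤ w n) (hsum : ∀ t : ℝ, τ < t → Summable fun n => w n ^ (-t)) (R : ℕ) :
    dimH {x : Fin k → ℝ | (∀ i, |x i| ≤ R) ∧ ∃ᶠ n : ℕ in atTop, ∃ m : Fin k → ℤ,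
      (∀ i, |(m i : ℝ) - w n * x i| ≤ w n ^ κ) ∧ m ∈ B ⌈((R : ℝ) + 1) * w n⌉₊} ≤ ENNReal.ofReal D := by
  have hR : (0 : ℝ) ≤ R := Nat.cast_nonneg R
  have hw0 : ∀ n, 0 < w n := fun n => by linarith [hw n]
  have hX : ∀ n, 1 ≤ ⌈((R : ℝ) + 1) * w n⌉₊ := fun n => by
    have h1 : (1 : ℝ) ≤ ⌈((R : ℝ) + 1) * w n⌉₊ := by
      refine le_trans ?_ (Nat.le_ceil _)
      nlinarith [hw n]
    exact_mod_cast h1
  have h := fam_core (fun n => B ⌈((R : ℝ) + 1) * w n⌉₊) {x : Fin k → ℝ | ∀ i, |x i| ≤ R} (fun n x i => w n * x i)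
    (fun n => ⌈((R : ℝ) + 1) * w n⌉₊) (fun n => w n ^ κ) w
    (fun n => K * (⌈((R : ℝ) + 1) * w n⌉₊ : ℝ) ^ s) hD0 0
    (fun n _ => Real.rpow_nonneg (hw0 n).le _) (fun n _ => hw0 n)
    (fun n _ T hT => hB _ (hX n) T hT)
    (fun n _ x hx i => by
      refine le_trans ?_ (Nat.le_ceil _)
      have h1 : w n ^ κ ≤ w n ^ (1 : ℝ) := Real.rpow_le_rpow_of_exponent_le (hw n) hκ.le
      rw [Real.rpow_one] at h1
      show |w n * x i| + w n ^ κ ≤ ((R : ℝ) + 1) * w n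
      rw [abs_mul, abs_of_pos (hw0 n)]
      have h2 : w n * |x i| ≤ w n * R := mul_le_mul_of_nonneg_left (hx i) (hw0 n).le
      linarith)
    (fun n _ x _ y _ δ hδ0 hδ => by
      rw [dist_pi_le_iff (div_nonneg hδ0 (hw0 n).le)]
      intro i
      rw [Real.dist_eq]
      have h1 := hδ i
      rw [show w n * x i - w n * y i = w n * (x i - y i) by ring, abs_mul, abs_of_pos (hw0 n)] at h1
      rw [le_div_iff₀ (hw0 n)]
      linarith)
    (by
      have h1 : Summable fun n => K * ((R : ℝ) + 2) ^ s * 2 ^ D * w n ^ (-(D * (1 - κ) - s)) :=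
        (hsum (D * (1 - κ) - s) (by linarith)).mul_left _
      refine Summable.of_nonneg_of_le (fun n => ?_) (fun n => ?_) h1
      · have h2 : 0 ≤ w n ^ κ := Real.rpow_nonneg (hw0 n).le _
        have h3 : 0 ≤ 2 * w n ^ κ / w n := div_nonneg (by linarith) (hw0 n).le
        positivity
      · have h2 : (⌈((R : ℝ) + 1) * w n⌉₊ : ℝ) ≤ ((R : ℝ) + 2) * w n := by
          have h3 := Nat.ceil_lt_add_one (show 0 ≤ ((R : ℝ) + 1) * w n by
            have := hw0 n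
            positivity)
          nlinarith [hw n]
        have h3 : (⌈((R : ℝ) + 1) * w n⌉₊ : ℝ) ^ s ≤ ((R : ℝ) + 2) ^ s * w n ^ s := by
          rw [← Real.mul_rpow (by linarith) (hw0 n).le]
          exact Real.rpow_le_rpow (Nat.cast_nonneg _) h2 hs
        have h4 : 2 * w n ^ κ / w n = 2 * w n ^ (κ - 1) := by
          rw [Real.rpow_sub (hw0 n), Real.rpow_one]
          ring
        have h5 : (2 * w n ^ (κ - 1)) ^ D = 2 ^ D * w n ^ ((κ - 1) * D) := by
          rw [Real.mul_rpow (by norm_num) (Real.rpow_nonneg (hw0 n).le _), ← Real.rpow_mul (hw0 n).le]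
        rw [h4, h5]
        have h6 : w n ^ s * w n ^ ((κ - 1) * D) = w n ^ (-(D * (1 - κ) - s)) := by
          rw [← Real.rpow_add (hw0 n)]
          congr 1
          ring
        have h7 : 0 ≤ w n ^ ((κ - 1) * D) := Real.rpow_nonneg (hw0 n).le _
        calc K * (⌈((R : ℝ) + 1) * w n⌉₊ : ℝ) ^ s * (2 ^ D * w n ^ ((κ - 1) * D)) ≤
            K * (((R : ℝ) + 2) ^ s * w n ^ s) * (2 ^ D * w n ^ ((κ - 1) * D)) := by
              refine mul_le_mul_of_nonneg_right (mul_le_mul_of_nonneg_left h3 hK) (by positivity)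
          _ = K * ((R : ℝ) + 2) ^ s * 2 ^ D * (w n ^ s * w n ^ ((κ - 1) * D)) := by ring
          _ = _ := by rw [h6])
  exact h

lemma summable_pow {q : ℝ} (hq0 : 0 < q) (hq1 : q < 1) (w : ℕ → ℝ)
    (hlim : Tendsto (fun n : ℕ => w n / Real.log n) atTop atTop) : Summable fun n => q ^ w n := by
  have hl : Real.log q < 0 := Real.log_neg hq0 hq1
  have h1 : Summable fun n : ℕ => (n : ℝ) ^ (-(2 : ℝ)) := Real.summable_nat_rpow.2 (by norm_num)
  refine Summable.of_norm_bounded_eventually_nat h1 ?_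
  filter_upwards [hlim.eventually_ge_atTop (2 / -Real.log q), eventually_ge_atTop 3] with n h2 h3
  have hn : (3 : ℝ) ≤ n := by exact_mod_cast h3
  have hln : 0 < Real.log n := Real.log_pos (by linarith)
  rw [le_div_iff₀ hln, div_mul_eq_mul_div, div_le_iff₀ (by linarith)] at h2
  rw [Real.norm_of_nonneg (by positivity), Real.rpow_def_of_pos hq0, Real.rpow_def_of_pos (by linarith)]
  exact Real.exp_le_exp.2 (by linarith)

lemma pow_expand {u x y w : ℝ} (hu : 0 < u) (hw : 1 ≤ w) (hx : u ≤ x) (hy : u ≤ y) :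
    u ^ (w - 1) * |x - y| ≤ |x ^ w - y ^ w| := by
  have aux : ∀ a b : ℝ, u ≤ b → b ≤ a → u ^ (w - 1) * (a - b) ≤ a ^ w - b ^ w := by
    intro a b hb hab
    have hb0 : 0 < b := by linarith
    have ha0 : 0 < a := by linarith
    have e1 : a ^ w = a ^ (w - 1) * a := by
      rw [← Real.rpow_add_one ha0.ne']
      congr 1
      ring
    have e2 : b ^ w = b ^ (w - 1) * b := by
      rw [← Real.rpow_add_one hb0.ne']
      congr 1
      ring
    have h1 : b ^ (w - 1) ≤ a ^ (w - 1) := Real.rpow_le_rpow hb0.le hab (by linarith)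
    have h2 : u ^ (w - 1) ≤ b ^ (w - 1) := Real.rpow_le_rpow hu.le hb (by linarith)
    rw [e1, e2]
    nlinarith
  rcases le_total y x with h | h
  · have h1 := aux x y hy h
    rw [abs_of_nonneg (by linarith : (0 : ℝ) ≤ x - y)]
    exact h1.trans (le_abs_self _)
  · have h1 := aux y x hx h
    rw [abs_sub_comm, abs_of_nonneg (by linarith : (0 : ℝ) ≤ y - x), abs_sub_comm]
    exact h1.trans (le_abs_self _)

/-- powers -/
theorem pow_dim (B : ℕ → Set (Fin 1 → ℤ)) {s κ K D u v ξ : ℝ} (hs : 0 ≤ s) (hκ0 : 0 ≤ κ) (hK : 0 ≤ K) (hD0 : 0 < D)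
    (hB : ∀ X : ℕ, 1 ≤ X → ∀ T : Finset (Fin 1 → ℤ), (∀ m ∈ T, (∀ i, |m i| ≤ X) ∧ m ∈ B X) →
      (T.card : ℝ) ≤ K * (X : ℝ) ^ s) (hκ1 : κ ≤ 1)
    (hu : 1 < u) (huv : u ≤ v) (hD : (s + κ * D) * Real.log v < D * Real.log u) (hξ : ξ ≠ 0)
    (w : ℕ → ℝ) (hw : ∀ n, 1 ≤ w n) (hlim : Tendsto (fun n : ℕ => w n / Real.log n) atTop atTop) :
    dimH {α : ℝ | (u ≤ α ∧ α ≤ v) ∧ ∃ᶠ n : ℕ in atTop, ∃ m : Fin 1 → ℤ,
      (∀ i, |(m i : ℝ) - ξ * α ^ w n| ≤ (v ^ w n) ^ κ) ∧ m ∈ B ⌈(|ξ| + 1) * v ^ w n⌉₊} ≤ ENNReal.ofReal D := by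
  have hu0 : 0 < u := by linarith
  have hv0 : 0 < v := by linarith
  have hv1 : 1 < v := by linarith
  have hξ0 : 0 < |ξ| := abs_pos.2 hξ
  have hvw : ∀ n, 1 ≤ v ^ w n := fun n => Real.one_le_rpow hv1.le (by linarith [hw n])
  have hX : ∀ n, 1 ≤ ⌈(|ξ| + 1) * v ^ w n⌉₊ := fun n => by
    have h1 : (1 : ℝ) ≤ ⌈(|ξ| + 1) * v ^ w n⌉₊ := by
      refine le_trans ?_ (Nat.le_ceil _)
      nlinarith [hvw n]
    exact_mod_cast h1
  have h := fam_core (X := ℝ) (fun n => B ⌈(|ξ| + 1) * v ^ w n⌉₊) {α : ℝ | u ≤ α ∧ α ≤ v} (fun n α _ => ξ * α ^ w n)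
    (fun n => ⌈(|ξ| + 1) * v ^ w n⌉₊) (fun n => (v ^ w n) ^ κ) (fun n => |ξ| * u ^ (w n - 1))
    (fun n => K * (⌈(|ξ| + 1) * v ^ w n⌉₊ : ℝ) ^ s) hD0 0
    (fun n _ => by
      have := hvw n
      positivity) (fun n _ => by positivity)
    (fun n _ T hT => hB _ (hX n) T hT)
    (fun n _ α hα i => by
      refine le_trans ?_ (Nat.le_ceil _)
      have hα0 : 0 < α := by linarith [hα.1]
      have h1 : (v ^ w n) ^ κ ≤ (v ^ w n) ^ (1 : ℝ) := Real.rpow_le_rpow_of_exponent_le (hvw n) hκ1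
      rw [Real.rpow_one] at h1
      show |ξ * α ^ w n| + (v ^ w n) ^ κ ≤ (|ξ| + 1) * v ^ w n
      rw [abs_mul, abs_of_pos (Real.rpow_pos_of_pos hα0 _)]
      have h2 : α ^ w n ≤ v ^ w n := Real.rpow_le_rpow hα0.le hα.2 (by linarith [hw n])
      nlinarith)
    (fun n _ α hα β hβ δ hδ0 hδ => by
      have h1 : |ξ * α ^ w n - ξ * β ^ w n| ≤ δ := hδ 0
      rw [← mul_sub, abs_mul] at h1
      rw [Real.dist_eq, le_div_iff₀ (by positivity)]
      have h2 := mul_le_mul_of_nonneg_left (pow_expand hu0 (hw n) hα.1 hβ.1) hξ0.le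
      linarith)
    (by
      obtain ⟨q, hq⟩ : ∃ q : ℝ, q = v ^ (s + κ * D) * u ^ (-D) := ⟨_, rfl⟩
      have hq0 : 0 < q := by rw [hq]; positivity
      have hq1 : q < 1 := by
        rw [hq, Real.rpow_def_of_pos hv0, Real.rpow_def_of_pos hu0, ← Real.exp_add, Real.exp_lt_one_iff]
        linarith
      have h1 : Summable fun n => K * (|ξ| + 2) ^ s * (2 * u / |ξ|) ^ D * q ^ w n :=
        (summable_pow hq0 hq1 w hlim).mul_left _
      refine Summable.of_nonneg_of_le (fun n => ?_) (fun n => ?_) h1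
      · have h2 := hvw n
        positivity
      · have hvn := hvw n
        have hvn0 : 0 < v ^ w n := by linarith
        have h2 : (⌈(|ξ| + 1) * v ^ w n⌉₊ : ℝ) ≤ (|ξ| + 2) * v ^ w n := by
          have h3 := Nat.ceil_lt_add_one (show 0 ≤ (|ξ| + 1) * v ^ w n by positivity)
          nlinarith
        have h3 : (⌈(|ξ| + 1) * v ^ w n⌉₊ : ℝ) ^ s ≤ (|ξ| + 2) ^ s * (v ^ w n) ^ s := by
          rw [← Real.mul_rpow (by positivity) hvn0.le]
          exact Real.rpow_le_rpow (Nat.cast_nonneg _) h2 hs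
        have h4 : 2 * (v ^ w n) ^ κ / (|ξ| * u ^ (w n - 1)) = (2 * u / |ξ|) * ((v ^ w n) ^ κ * (u ^ w n)⁻¹) := by
          rw [Real.rpow_sub_one hu0.ne']
          field_simp
        have h5 : ((v ^ w n) ^ κ * (u ^ w n)⁻¹) ^ D = (v ^ (κ * D) * u ^ (-D)) ^ w n := by
          rw [Real.mul_rpow (by positivity) (by positivity), Real.mul_rpow (by positivity) (by positivity),
            ← Real.rpow_mul (by positivity), Real.inv_rpow (by positivity), ← Real.rpow_mul (by positivity),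
            ← Real.rpow_mul (by positivity), ← Real.rpow_mul (by positivity), ← Real.rpow_mul (by positivity),
            ← Real.rpow_neg (by positivity)]
          congr 2 <;> ring
        have h6 : (v ^ w n) ^ s * (v ^ (κ * D) * u ^ (-D)) ^ w n = q ^ w n := by
          rw [hq, ← Real.rpow_mul (by positivity), mul_comm (w n) s, Real.rpow_mul (by positivity),
            ← Real.mul_rpow (by positivity) (by positivity)]
          congr 1
          rw [Real.rpow_add hv0]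
          ring
        rw [h4, Real.mul_rpow (by positivity) (by positivity), h5]
        calc K * (⌈(|ξ| + 1) * v ^ w n⌉₊ : ℝ) ^ s * ((2 * u / |ξ|) ^ D * (v ^ (κ * D) * u ^ (-D)) ^ w n) ≤
            K * ((|ξ| + 2) ^ s * (v ^ w n) ^ s) * ((2 * u / |ξ|) ^ D * (v ^ (κ * D) * u ^ (-D)) ^ w n) := by
              refine mul_le_mul_of_nonneg_right (mul_le_mul_of_nonneg_left h3 hK) (by positivity)
          _ = K * (|ξ| + 2) ^ s * (2 * u / |ξ|) ^ D * ((v ^ w n) ^ s * (v ^ (κ * D) * u ^ (-D)) ^ w n) := by ring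
          _ = _ := by rw [h6])
  exact h

end Pool.Agent.U265.MS
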