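import Pool.Agent.U61.JS.F

/-!
# Radicands and discriminants of quadratic fields (helper265)
-/

set_option autoImplicit false

namespace Pool.Agent.U265.MS

open Finset Filter Pool.Agent.Y549.SP Pool.Agent.U61.JS

/-- `d` is the discriminant of `ℚ(√m)` (`1` if `m` is a square) -/
def IsDisc (m d : ℤ) : Prop := Fund d ∧ ∃ j : ℤ, j ≠ 0 ∧ 4 * m = d * j ^ 2

lemma sqf_unique {s s' x y : ℤ} (hs : Squarefree s) (hs' : Squarefree s') (hx : x ≠ 0) (hy : y ≠ 0)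
    (h : s * x ^ 2 = s' * y ^ 2) : s = s' := by
  have hg : 0 < Int.gcd x y := Int.gcd_pos_of_ne_zero_left y hx
  obtain ⟨x', y', hc, hx', hy'⟩ := Int.exists_gcd_one hg
  have hg0 : ((Int.gcd x y : ℕ) : ℤ) ≠ 0 := by exact_mod_cast hg.ne'
  have h1 : s * x' ^ 2 = s' * y' ^ 2 := by
    have h2 : ((Int.gcd x y : ℕ) : ℤ) ^ 2 * (s * x' ^ 2) = ((Int.gcd x y : ℕ) : ℤ) ^ 2 * (s' * y' ^ 2) := by
      calc ((Int.gcd x y : ℕ) : ℤ) ^ 2 * (s * x' ^ 2) = s * (x' * ((Int.gcd x y : ℕ) : ℤ)) ^ 2 := by ring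
        _ = s * x ^ 2 := by rw [← hx']
        _ = s' * y ^ 2 := h
        _ = s' * (y' * ((Int.gcd x y : ℕ) : ℤ)) ^ 2 := by rw [← hy']
        _ = _ := by ring
    exact mul_left_cancel₀ (pow_ne_zero 2 hg0) h2
  have hcop : IsCoprime x' y' := Int.isCoprime_iff_gcd_eq_one.2 hc
  have hd1 : x' ^ 2 ∣ s' := by
    have h2 : x' ^ 2 ∣ s' * y' ^ 2 := ⟨s, by rw [← h1]; ring⟩
    exact (hcop.pow (m := 2) (n := 2)).dvd_of_dvd_mul_right h2
  have hd2 : y' ^ 2 ∣ s := by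
    have h2 : y' ^ 2 ∣ s * x' ^ 2 := ⟨s', by rw [h1]; ring⟩
    exact (hcop.symm.pow (m := 2) (n := 2)).dvd_of_dvd_mul_right h2
  have hu1 : IsUnit x' := hs' x' (by rw [← pow_two]; exact hd1)
  have hu2 : IsUnit y' := hs y' (by rw [← pow_two]; exact hd2)
  rw [Int.isUnit_iff] at hu1 hu2
  have e1 : x' ^ 2 = 1 := by rcases hu1 with h | h <;> rw [h] <;> norm_num
  have e2 : y' ^ 2 = 1 := by rcases hu2 with h | h <;> rw [h] <;> norm_num
  rw [e1, e2] at h1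
  linarith

lemma exists_disc {m : ℤ} (hm : m ≠ 0) : ∃ d, IsDisc m d := by
  obtain ⟨a, b, hab, ha⟩ := Nat.sq_mul_squarefree m.natAbs
  have hb : b ≠ 0 := by
    rintro rfl
    rw [zero_pow two_ne_zero, zero_mul] at hab
    exact hm (Int.natAbs_eq_zero.1 hab.symm)
  obtain ⟨s, hs, hsm⟩ : ∃ s : ℤ, Squarefree s ∧ m = s * (b : ℤ) ^ 2 := by
    rcases le_total 0 m with h | h
    · refine ⟨a, ?_, ?_⟩
      · rw [← Int.squarefree_natAbs]
        simpa using ha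
      · have h1 : ((m.natAbs : ℕ) : ℤ) = m := Int.natAbs_of_nonneg h
        rw [← h1, ← hab]
        push_cast
        ring
    · refine ⟨-a, ?_, ?_⟩
      · rw [← Int.squarefree_natAbs]
        simpa using ha
      · have h1 : ((m.natAbs : ℕ) : ℤ) = -m := by omega
        have h2 : ((m.natAbs : ℕ) : ℤ) = (b : ℤ) ^ 2 * a := by rw [← hab]; push_cast; ring
        rw [h1] at h2
        linarith
  have hbz : (b : ℤ) ≠ 0 := by exact_mod_cast hb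
  have h4 : s % 4 ≠ 0 := by
    intro h
    have h1 : (2 : ℤ) * 2 ∣ s := by
      have : (4 : ℤ) ∣ s := Int.dvd_of_emod_eq_zero h
      simpa using this
    have h2 := hs 2 h1
    rw [Int.isUnit_iff] at h2
    omega
  by_cases h1 : s % 4 = 1
  · refine ⟨s, Or.inl ⟨h1, hs⟩, 2 * b, by positivity, ?_⟩
    rw [hsm]
    ring
  · refine ⟨4 * s, Or.inr ⟨s, rfl, by omega, hs⟩, b, hbz, ?_⟩
    rw [hsm]
    ring

lemma disc_unique {m d d' : ℤ} (h : IsDisc m d) (h' : IsDisc m d') : d = d' := by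
  obtain ⟨hF, j, hj, h1⟩ := h
  obtain ⟨hF', j', hj', h1'⟩ := h'
  have h2 : d * j ^ 2 = d' * j' ^ 2 := by rw [← h1, ← h1']
  rcases hF with ⟨a1, a2⟩ | ⟨s, a1, a2, a3⟩
  · rcases hF' with ⟨b1, b2⟩ | ⟨s', b1, b2, b3⟩
    · exact sqf_unique a2 b2 hj hj' h2
    · have h3 : d * j ^ 2 = s' * (2 * j') ^ 2 := by rw [h2, b1]; ring
      have h4 := sqf_unique a2 b3 hj (mul_ne_zero two_ne_zero hj') h3
      omega
  · rcases hF' with ⟨b1, b2⟩ | ⟨s', b1, b2, b3⟩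
    · have h3 : s * (2 * j) ^ 2 = d' * j' ^ 2 := by rw [← h2, a1]; ring
      have h4 := sqf_unique a3 b2 (mul_ne_zero two_ne_zero hj) hj' h3
      omega
    · have h3 : s * (2 * j) ^ 2 = s' * (2 * j') ^ 2 := by
        rw [a1, b1] at h2
        linear_combination h2
      have h4 := sqf_unique a3 b3 (mul_ne_zero two_ne_zero hj) (mul_ne_zero two_ne_zero hj') h3
      rw [a1, b1, h4]

/-- the discriminant as a function -/
noncomputable def disc (m : ℤ) : ℤ := by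
  classical
  exact if h : ∃ d, IsDisc m d then h.choose else 1

lemma disc_spec {m : ℤ} (hm : m ≠ 0) : IsDisc m (disc m) := by
  unfold disc
  rw [dif_pos (exists_disc hm)]
  exact (exists_disc hm).choose_spec

lemma disc_abs_le {m d : ℤ} {X : ℕ} (h : IsDisc m d) (hm : |m| ≤ X) : |d| ≤ 4 * X := by
  obtain ⟨-, j, hj, h1⟩ := h
  have h2 : |d| * j ^ 2 = 4 * |m| := by
    have h3 : |4 * m| = |d * j ^ 2| := by rw [h1]
    rw [abs_mul, abs_mul, abs_of_pos (by norm_num : (0 : ℤ) < 4), abs_of_nonneg (sq_nonneg j)] at h3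
    linarith
  have h4 : 1 ≤ j ^ 2 := by
    have : 0 < j ^ 2 := by positivity
    omega
  have h5 : |d| ≤ |d| * j ^ 2 := le_mul_of_one_le_right (abs_nonneg d) h4
  linarith

/-- the radicands of the discriminants in a set -/
lemma rad_count {e : ℝ} (he : 1 / 2 < e) : ∃ C : ℝ, 0 < C ∧ ∀ (X : ℕ) (K : ℝ) (B : Set ℤ), 0 ≤ K →
    (∀ Y : ℕ, 1 ≤ Y → Y ≤ 4 * X → ∀ T : Finset ℤ, (∀ d ∈ T, d ∈ B ∧ |d| ≤ Y) → (T.card : ℝ) ≤ K * (Y : ℝ) ^ e) →
    ∀ T : Finset ℤ, (∀ m ∈ T, m ≠ 0 ∧ |m| ≤ X ∧ ∃ d ∈ B, IsDisc m d) → (T.card : ℝ) ≤ C * K * (X : ℝ) ^ e := by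
  classical
  have hsum : Summable (fun j : ℕ => 1 / (j : ℝ) ^ (2 * e)) := Real.summable_one_div_nat_rpow.2 (by linarith)
  refine ⟨4 ^ e * (∑' j : ℕ, 1 / (j : ℝ) ^ (2 * e)) + 1, ?_, ?_⟩
  · have : 0 ≤ ∑' j : ℕ, 1 / (j : ℝ) ^ (2 * e) := tsum_nonneg fun j => by positivity
    positivity
  intro X K B hK hB T hT
  set D : ℕ → Finset ℤ := fun j => (Icc (-((4 * X / j ^ 2 : ℕ) : ℤ)) ((4 * X / j ^ 2 : ℕ) : ℤ)).filter (fun d => d ∈ B)
    with hD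
  set J : Finset ℕ := (Icc 1 (4 * X)).filter (fun j => j ^ 2 ≤ 4 * X) with hJ
  have hsub : T ⊆ J.biUnion (fun j => (D j).image (fun d => d * (j : ℤ) ^ 2 / 4)) := by
    intro m hm
    obtain ⟨hm0, hmX, d, hdB, hF, j, hj, h1⟩ := hT m hm
    have hj1 : 1 ≤ j.natAbs := by omega
    have hjj : ((j.natAbs : ℕ) : ℤ) ^ 2 = j ^ 2 := by rw [Int.natAbs_sq]
    have h2 : d.natAbs * j.natAbs ^ 2 = 4 * m.natAbs := by
      have h3 : (4 * m).natAbs = (d * j ^ 2).natAbs := by rw [h1]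
      rw [Int.natAbs_mul, Int.natAbs_mul, Int.natAbs_pow] at h3
      simpa using h3.symm
    have hmX' : m.natAbs ≤ X := by
      rw [Int.abs_eq_natAbs] at hmX
      exact_mod_cast hmX
    have hd1 : 1 ≤ d.natAbs := by
      rcases Nat.eq_zero_or_pos d.natAbs with h | h
      · rw [h] at h2; omega
      · exact h
    have hj2 : j.natAbs ^ 2 ≤ 4 * X := by nlinarith
    rw [mem_biUnion]
    refine ⟨j.natAbs, ?_, ?_⟩
    · rw [hJ, mem_filter, mem_Icc]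
      refine ⟨⟨hj1, ?_⟩, hj2⟩
      nlinarith
    · rw [mem_image]
      refine ⟨d, ?_, ?_⟩
      · rw [hD]
        show d ∈ (Icc (-((4 * X / j.natAbs ^ 2 : ℕ) : ℤ)) ((4 * X / j.natAbs ^ 2 : ℕ) : ℤ)).filter (fun d => d ∈ B)
        rw [mem_filter, mem_Icc]
        have h5 : d.natAbs ≤ 4 * X / j.natAbs ^ 2 := by
          rw [Nat.le_div_iff_mul_le (by positivity)]
          omega
        refine ⟨⟨by omega, by omega⟩, hdB⟩
      · rw [hjj, ← h1]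
        exact Int.mul_ediv_cancel_left m (by norm_num)
  have h1 : (T.card : ℝ) ≤ ∑ j ∈ J, ((D j).card : ℝ) := by
    have h2 := (card_le_card hsub).trans card_biUnion_le
    have h3 : (T.card : ℝ) ≤ ∑ j ∈ J, (((D j).image (fun d => d * (j : ℤ) ^ 2 / 4)).card : ℝ) := by exact_mod_cast h2
    exact h3.trans (sum_le_sum fun j _ => Nat.cast_le.2 card_image_le)
  have h2 : ∀ j ∈ J, ((D j).card : ℝ) ≤ K * (4 ^ e * (X : ℝ) ^ e) * (1 / (j : ℝ) ^ (2 * e)) := by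
    intro j hj
    rw [hJ, mem_filter, mem_Icc] at hj
    obtain ⟨⟨hj1, -⟩, hj2⟩ := hj
    have hj0 : (0 : ℝ) < j := by exact_mod_cast hj1
    have h3 : 1 ≤ 4 * X / j ^ 2 := by
      rw [Nat.le_div_iff_mul_le (by positivity)]
      omega
    have h4 := hB (4 * X / j ^ 2) h3 (Nat.div_le_self _ _) (D j) (by
      intro d hd
      rw [hD] at hd
      have hd' : d ∈ (Icc (-((4 * X / j ^ 2 : ℕ) : ℤ)) ((4 * X / j ^ 2 : ℕ) : ℤ)).filter (fun d => d ∈ B) := hd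
      rw [mem_filter, mem_Icc] at hd'
      refine ⟨hd'.2, ?_⟩
      rw [abs_le]
      exact hd'.1)
    refine h4.trans ?_
    rw [mul_assoc]
    refine mul_le_mul_of_nonneg_left ?_ hK
    have h5 : ((4 * X / j ^ 2 : ℕ) : ℝ) ≤ (4 * X : ℝ) / (j : ℝ) ^ 2 := by
      have := @Nat.cast_div_le ℝ _ _ _ (4 * X) (j ^ 2)
      push_cast at this
      exact this
    calc (((4 * X / j ^ 2 : ℕ) : ℝ)) ^ e ≤ ((4 * X : ℝ) / (j : ℝ) ^ 2) ^ e :=
          Real.rpow_le_rpow (Nat.cast_nonneg _) h5 (by linarith)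
      _ = (4 * X : ℝ) ^ e / ((j : ℝ) ^ 2) ^ e := Real.div_rpow (by positivity) (by positivity) _
      _ = _ := by
          rw [Real.mul_rpow (by norm_num) (Nat.cast_nonneg X), ← Real.rpow_natCast (j : ℝ) 2,
            ← Real.rpow_mul hj0.le]
          push_cast
          ring
  have h3 : ∑ j ∈ J, (1 / (j : ℝ) ^ (2 * e)) ≤ ∑' j : ℕ, 1 / (j : ℝ) ^ (2 * e) :=
    hsum.sum_le_tsum J (fun j _ => by positivity)
  have h4 : (0 : ℝ) ≤ (X : ℝ) ^ e := Real.rpow_nonneg (Nat.cast_nonneg X) e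
  calc (T.card : ℝ) ≤ ∑ j ∈ J, ((D j).card : ℝ) := h1
    _ ≤ ∑ j ∈ J, K * (4 ^ e * (X : ℝ) ^ e) * (1 / (j : ℝ) ^ (2 * e)) := sum_le_sum h2
    _ = K * (4 ^ e * (X : ℝ) ^ e) * ∑ j ∈ J, (1 / (j : ℝ) ^ (2 * e)) := by rw [mul_sum]
    _ ≤ K * (4 ^ e * (X : ℝ) ^ e) * ∑' j : ℕ, 1 / (j : ℝ) ^ (2 * e) :=
        mul_le_mul_of_nonneg_left h3 (by positivity)
    _ ≤ _ := by nlinarith [mul_nonneg hK h4]

/-- the radicands with a small discriminant -/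
lemma small_rad {e : ℝ} (he : 1 / 2 < e) : ∃ C : ℝ, 0 < C ∧ ∀ (X : ℕ) (Z : ℝ), 1 ≤ Z →
    ∀ T : Finset ℤ, (∀ m ∈ T, m ≠ 0 ∧ |m| ≤ X ∧ ∃ d, IsDisc m d ∧ |(d : ℝ)| < Z) →
      (T.card : ℝ) ≤ C * Z * (X : ℝ) ^ e := by
  obtain ⟨C, hC, h⟩ := rad_count he
  refine ⟨3 * C, by positivity, fun X Z hZ T hT => ?_⟩
  have h1 := h X (3 * Z) {d : ℤ | |(d : ℝ)| < Z} (by positivity) ?_ T ?_
  · calc (T.card : ℝ) ≤ C * (3 * Z) * (X : ℝ) ^ e := h1
      _ = _ := by ring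
  · intro Y hY _ T' hT'
    have hY1 : (1 : ℝ) ≤ (Y : ℝ) ^ e := Real.one_le_rpow (by exact_mod_cast hY) (by linarith)
    have h2 : T' ⊆ Icc (-(⌊Z⌋₊ : ℤ)) ⌊Z⌋₊ := by
      intro d hd
      have h3 : |(d : ℝ)| < Z := (hT' d hd).1
      have h4 : d.natAbs ≤ ⌊Z⌋₊ := by
        apply Nat.le_floor
        rw [Nat.cast_natAbs, Int.cast_abs]
        exact h3.le
      rw [mem_Icc]
      omega
    have h3 := card_le_card h2
    rw [Int.card_Icc] at h3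
    have h4 : ((⌊Z⌋₊ : ℤ) + 1 - -(⌊Z⌋₊ : ℤ)).toNat = 2 * ⌊Z⌋₊ + 1 := by omega
    rw [h4] at h3
    have h5 : (⌊Z⌋₊ : ℝ) ≤ Z := Nat.floor_le (by linarith)
    have h6 : (T'.card : ℝ) ≤ 2 * ⌊Z⌋₊ + 1 := by exact_mod_cast h3
    nlinarith
  · intro m hm
    obtain ⟨h1, h2, d, h3, h4⟩ := hT m hm
    exact ⟨h1, h2, d, h4, h3⟩

end Pool.Agent.U265.MS
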