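import Pool.Agent.U265.MS.Tw
import Pool.Agent.U265.MS.Dim

/-!
# Metric theorems for the splitting of the small primes (helper265)
-/

set_option autoImplicit false

namespace Pool.Agent.U265.MS

open Finset Filter Topology Pool.Agent.Y549.SP Pool.Agent.U61.JS
open scoped ENNReal

/-- regular sequences of vectors -/
def Regular {k : ℕ} (Q : Set ℕ) (A κ : ℝ) (W : ℕ → ℝ) (x : ℕ → Fin k → ℝ) : Prop :=
  ∀ η : ℝ, 0 < η → ∃ c : ℝ, 0 < c ∧ ∀ᶠ n : ℕ in atTop, ∀ m d : Fin k → ℤ,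
    (∀ i, m i ≠ 0 ∧ |(m i : ℝ) - x n i| ≤ W n ^ κ ∧ IsDisc (m i) (d i)) →
      (∀ i, W n ^ c ≤ |(d i : ℝ)|) ∧ ∀ (y : ℕ) (s : Fin k → Bool), Real.log (W n) ^ A ≤ y → (y : ℝ) ≤ W n ^ c →
        |2 ^ k * ((patIn Q d s y).ncard : ℝ) - (primesIn Q y).ncard| ≤ η * (primesIn Q y).ncard

lemma transfer {k : ℕ} (Q : Set ℕ) {A A' c θ η G : ℝ} (hA' : 0 < A') (hAA : A' < A) (hc : 0 < c) (hθ : 0 < θ)
    (hG : 1 ≤ G) : ∀ᶠ W : ℝ in atTop, ∀ X : ℕ, W ≤ X → (X : ℝ) ≤ W ^ G → ∀ m : Fin k → ℤ,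
      ¬ Bad Q A' c θ η X m → ∀ d : Fin k → ℤ, (∀ i, IsDisc (m i) (d i)) →
        (∀ i, W ^ (min c θ) ≤ |(d i : ℝ)|) ∧ ∀ (y : ℕ) (s : Fin k → Bool), Real.log W ^ A ≤ y →
          (y : ℝ) ≤ W ^ (min c θ) →
          |2 ^ k * ((patIn Q d s y).ncard : ℝ) - (primesIn Q y).ncard| ≤ η * (primesIn Q y).ncard := by
  have hev1 : ∀ᶠ W : ℝ in atTop, (2 * G) ^ A' ≤ Real.log W ^ (A - A') :=
    ((tendsto_rpow_atTop (by linarith : 0 < A - A')).comp Real.tendsto_log_atTop).eventually_ge_atTop _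
  filter_upwards [hev1, eventually_ge_atTop (1 : ℝ), Real.tendsto_log_atTop.eventually_ge_atTop (Real.log 8),
    Real.tendsto_log_atTop.eventually_ge_atTop 1] with W e1 e2 e3 e4 X hX1 hX2 m hbad d hd
  have hW0 : 0 < W := by linarith
  have hXp : (0 : ℝ) < X := by linarith
  have hcm : 0 < min c θ := lt_min hc hθ
  have hlog8 : Real.log (8 * X) ≤ 2 * G * Real.log W := by
    rw [Real.log_mul (by norm_num) hXp.ne']
    have h1 := Real.log_le_log hXp hX2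
    rw [Real.log_rpow hW0] at h1
    nlinarith
  have hl0 : 0 ≤ Real.log (8 * (X : ℝ)) := Real.log_nonneg (by linarith)
  have hpow : Real.log (8 * X) ^ A' ≤ Real.log W ^ A := by
    calc Real.log (8 * X) ^ A' ≤ (2 * G * Real.log W) ^ A' := Real.rpow_le_rpow hl0 hlog8 hA'.le
      _ = (2 * G) ^ A' * Real.log W ^ A' := Real.mul_rpow (by linarith) (by linarith)
      _ ≤ Real.log W ^ (A - A') * Real.log W ^ A' :=
          mul_le_mul_of_nonneg_right e1 (Real.rpow_nonneg (by linarith) _)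
      _ = Real.log W ^ A := by
          rw [← Real.rpow_add (by linarith)]
          congr 1
          ring
  unfold Bad at hbad
  push Not at hbad
  obtain ⟨h1, h2⟩ := hbad d hd
  refine ⟨fun i => le_trans ?_ (h1 i), fun y s hy1 hy2 => h2 y s (hpow.trans hy1) (hy2.trans ?_)⟩
  · exact (Real.rpow_le_rpow_of_exponent_le e2 (min_le_right _ _)).trans (Real.rpow_le_rpow hW0.le hX1 hθ.le)
  · exact (Real.rpow_le_rpow_of_exponent_le e2 (min_le_left _ _)).trans (Real.rpow_le_rpow hW0.le hX1 hc.le)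

lemma tendsto_of_summable {w : ℕ → ℝ} {t : ℝ} (hw : ∀ n, 1 ≤ w n) (ht : 0 < t)
    (h : Summable (fun n => (w n) ^ (-t))) : Tendsto w atTop atTop := by
  have h1 := h.tendsto_atTop_zero
  rw [tendsto_atTop]
  intro b
  have hb : 0 < (max b 1) ^ (-t) := Real.rpow_pos_of_pos (lt_of_lt_of_le one_pos (le_max_right _ _)) _
  filter_upwards [h1.eventually (gt_mem_nhds hb)] with n hn
  by_contra hcon
  rw [not_le] at hcon
  have h2 : w n ≤ max b 1 := hcon.le.trans (le_max_left _ _)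
  have h3 : (max b 1) ^ (-t) ≤ (w n) ^ (-t) :=
    Real.rpow_le_rpow_of_nonpos (by linarith [hw n]) h2 (by linarith)
  linarith

/-- the choice of the exponents -/
lemma choose_exp {A ρ b L D' : ℝ} (hA0 : 0 < A) (hAρ : 1 < A * ρ) (hb : b = max (1 / 2) (1 - ρ + 1 / A))
    (hD' : L + b < D') : ∃ e A' : ℝ, 1 / 2 < e ∧ L + e < D' ∧ 0 < A' ∧ A' < A ∧ 1 < A' * ρ ∧ 1 - ρ + 1 / A' < e := by
  obtain ⟨e, he1, he2⟩ := exists_between (show b < D' - L by linarith)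
  have hb1 : 1 / 2 ≤ b := by rw [hb]; exact le_max_left _ _
  have hb2 : 1 - ρ + 1 / A ≤ b := by rw [hb]; exact le_max_right _ _
  have hiA : 0 < 1 / A := by positivity
  have h1 : 1 / A < ρ := by rw [div_lt_iff₀ hA0]; linarith
  obtain ⟨t, ht1, ht2⟩ := exists_between (show 1 / A < min ρ (e - 1 + ρ) from lt_min h1 (by linarith))
  have ht3 : t < ρ := lt_of_lt_of_le ht2 (min_le_left _ _)
  have ht4 : t < e - 1 + ρ := lt_of_lt_of_le ht2 (min_le_right _ _)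
  have ht0 : 0 < t := by linarith
  refine ⟨e, 1 / t, by linarith, by linarith, by positivity, ?_, ?_, ?_⟩
  · rw [div_lt_iff₀ ht0]
    rw [div_lt_iff₀ hA0] at ht1
    linarith
  · rw [div_mul_eq_mul_div, lt_div_iff₀ ht0]
    linarith
  · rw [one_div_one_div]
    linarith

theorem dil_main (k : ℕ) (hk : 1 ≤ k) (A ρ κ τ : ℝ) (Q : Set ℕ) (hρ : 0 < ρ) (hρ1 : ρ ≤ 1) (hAρ : 1 < A * ρ)
    (hκ : κ < 1) (hτ : 0 ≤ τ) (hQ : Thick Q ρ) (w : ℕ → ℝ) (hw : ∀ n, 1 ≤ w n)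
    (hsum : ∀ t : ℝ, τ < t → Summable fun n => w n ^ (-t)) :
    dimH {x : Fin k → ℝ | ¬ Regular Q A κ w (fun n i => w n * x i)} ≤
      ENNReal.ofReal ((k - 1 + max (1 / 2) (1 - ρ + 1 / A) + τ) / (1 - κ)) := by
  have hκ' : 0 < 1 - κ := by linarith
  have hk1 : (1 : ℝ) ≤ k := by exact_mod_cast hk
  have hA0 : 0 < A := by
    by_contra h
    push Not at h
    nlinarith
  obtain ⟨b, hb⟩ : ∃ b : ℝ, b = max (1 / 2) (1 - ρ + 1 / A) := ⟨_, rfl⟩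
  have hb1 : 1 / 2 ≤ b := by rw [hb]; exact le_max_left _ _
  rw [← hb]
  refine Pool.Agent.N84.MD.dim_le_of_forall (div_nonneg (by linarith) hκ'.le) fun D hD => ?_
  rw [div_lt_iff₀ hκ'] at hD
  have hD0 : 0 < D := by
    by_contra h
    push Not at h
    nlinarith
  obtain ⟨e, A', he, heD, hA'0, hA'A, hA'ρ, he'⟩ := choose_exp (L := k - 1 + τ) (D' := D * (1 - κ)) hA0 hAρ hb
    (by linarith)
  have hj : ∀ j : ℕ, ∃ c θ K : ℝ, 0 < c ∧ 0 < θ ∧ 0 < K ∧ ∀ X : ℕ, 1 ≤ X → ∀ T : Finset (Fin k → ℤ),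
      (∀ m ∈ T, (∀ i, m i ≠ 0 ∧ |m i| ≤ X) ∧ Bad Q A' c θ (1 / ((j : ℝ) + 1)) X m) →
      (T.card : ℝ) ≤ K * (X : ℝ) ^ ((k : ℝ) - 1 + e) := fun j =>
    rad_joint k hk A' ρ (1 / ((j : ℝ) + 1)) e Q hρ hρ1 hA'ρ (by positivity) he he' hQ
  choose c θ K hc hθ hK hcount using hj
  have hsub : {x : Fin k → ℝ | ¬ Regular Q A κ w (fun n i => w n * x i)} ⊆
      ⋃ R : ℕ, ⋃ j : ℕ, {x : Fin k → ℝ | (∀ i, |x i| ≤ R) ∧ ∃ᶠ n : ℕ in atTop, ∃ m : Fin k → ℤ,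
        (∀ i, |(m i : ℝ) - w n * x i| ≤ w n ^ κ) ∧ m ∈ {m : Fin k → ℤ | (∀ i, m i ≠ 0) ∧
          Bad Q A' (c j) (θ j) (1 / ((j : ℝ) + 1)) ⌈((R : ℝ) + 1) * w n⌉₊ m}} := by
    intro x hx
    by_contra hcon
    apply hx
    rw [Set.mem_iUnion] at hcon
    push Not at hcon
    obtain ⟨R, hR⟩ : ∃ R : ℕ, ∀ i, |x i| ≤ R := by
      obtain ⟨R, hR⟩ := exists_nat_ge (∑ i, |x i|)
      exact ⟨R, fun i => (single_le_sum (f := fun i => |x i|) (fun i _ => abs_nonneg _) (mem_univ i)).trans hR⟩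
    have h1 := hcon R
    rw [Set.mem_iUnion] at h1
    push Not at h1
    intro η hη
    obtain ⟨j, hj⟩ := exists_nat_one_div_lt hη
    have h2 := h1 j
    rw [Set.mem_ofPred_eq] at h2
    push Not at h2
    have h3 := h2 hR
    refine ⟨min (c j) (θ j), lt_min (hc j) (hθ j), ?_⟩
    have hwt : Tendsto w atTop atTop := tendsto_of_summable hw (t := τ + 1) (by linarith) (hsum _ (by linarith))
    filter_upwards [h3, hwt.eventually (transfer (k := k) Q (η := 1 / ((j : ℝ) + 1)) hA'0 hA'A (hc j) (hθ j)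
      (show (1 : ℝ) ≤ 2 by norm_num)), hwt.eventually_ge_atTop ((R : ℝ) + 2)] with n h4 h5 h6 m d hmd
    have hR0 : (0 : ℝ) ≤ R := Nat.cast_nonneg R
    have h7 := h4 m (fun i => (hmd i).2.1)
    have h8 : ¬ Bad Q A' (c j) (θ j) (1 / ((j : ℝ) + 1)) _ m := fun hB => h7 ⟨fun i => (hmd i).1, hB⟩
    have hX1 : w n ≤ (⌈((R : ℝ) + 1) * w n⌉₊ : ℝ) := by
      refine le_trans ?_ (Nat.le_ceil _)
      nlinarith [hw n]
    have hX2 : (⌈((R : ℝ) + 1) * w n⌉₊ : ℝ) ≤ w n ^ (2 : ℝ) := by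
      have h9 := Nat.ceil_lt_add_one (show 0 ≤ ((R : ℝ) + 1) * w n by
        have := hw n
        positivity)
      have e2 : w n ^ (2 : ℝ) = w n * w n := by
        rw [show (2 : ℝ) = ((2 : ℕ) : ℝ) by norm_num, Real.rpow_natCast]
        ring
      rw [e2]
      nlinarith [hw n]
    obtain ⟨h10, h11⟩ := h5 _ hX1 hX2 m h8 d (fun i => (hmd i).2.2)
    refine ⟨h10, fun y s hy1 hy2 => (h11 y s hy1 hy2).trans ?_⟩
    exact mul_le_mul_of_nonneg_right hj.le (Nat.cast_nonneg _)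
  refine (dimH_mono hsub).trans ?_
  rw [dimH_iUnion]
  refine iSup_le fun R => ?_
  rw [dimH_iUnion]
  refine iSup_le fun j => ?_
  refine dil_dim (fun X => {m : Fin k → ℤ | (∀ i, m i ≠ 0) ∧ Bad Q A' (c j) (θ j) (1 / ((j : ℝ) + 1)) X m})
    (s := k - 1 + e) (τ := τ) (K := K j) (by linarith) hκ (hK j).le hD0 (by linarith) ?_ w hw hsum R
  intro X hX T hT
  exact hcount j X hX T (fun m hm => ⟨fun i => ⟨(hT m hm).2.1 i, (hT m hm).1 i⟩, (hT m hm).2.2⟩)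

theorem pow_main (A ρ κ : ℝ) (Q : Set ℕ) (hρ : 0 < ρ) (hρ1 : ρ ≤ 1) (hAρ : 1 < A * ρ)
    (hκ0 : 0 ≤ κ) (hκ : κ < 1) (hQ : Thick Q ρ) (Ξ : Set ℝ) (hΞ : Ξ.Countable) (hΞ0 : ∀ ξ ∈ Ξ, ξ ≠ 0)
    (w : ℕ → ℝ) (hw : ∀ n, 1 ≤ w n) (hlim : Tendsto (fun n : ℕ => w n / Real.log n) atTop atTop) :
    dimH {α : ℝ | 1 < α ∧ ¬ ∀ ξ ∈ Ξ, Regular Q A κ (fun n => α ^ w n) (fun n (_ : Fin 1) => ξ * α ^ w n)} ≤
      ENNReal.ofReal (max (1 / 2) (1 - ρ + 1 / A) / (1 - κ)) := by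
  have hκ' : 0 < 1 - κ := by linarith
  have hA0 : 0 < A := by
    by_contra h
    push Not at h
    nlinarith
  obtain ⟨b, hb⟩ : ∃ b : ℝ, b = max (1 / 2) (1 - ρ + 1 / A) := ⟨_, rfl⟩
  have hb1 : 1 / 2 ≤ b := by rw [hb]; exact le_max_left _ _
  rw [← hb]
  refine Pool.Agent.N84.MD.dim_le_of_forall (div_nonneg (by linarith) hκ'.le) fun D hD => ?_
  rw [div_lt_iff₀ hκ'] at hD
  have hD0 : 0 < D := by
    by_contra h
    push Not at h
    nlinarith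
  obtain ⟨e, A', he, heD, hA'0, hA'A, hA'ρ, he'⟩ := choose_exp (L := 0) (D' := D * (1 - κ)) hA0 hAρ hb
    (by linarith)
  rw [zero_add] at heD
  have hj : ∀ j : ℕ, ∃ c θ K : ℝ, 0 < c ∧ 0 < θ ∧ 0 < K ∧ ∀ X : ℕ, 1 ≤ X → ∀ T : Finset (Fin 1 → ℤ),
      (∀ m ∈ T, (∀ i, m i ≠ 0 ∧ |m i| ≤ X) ∧ Bad Q A' c θ (1 / ((j : ℝ) + 1)) X m) →
      (T.card : ℝ) ≤ K * (X : ℝ) ^ (((1 : ℕ) : ℝ) - 1 + e) := fun j =>
    rad_joint 1 le_rfl A' ρ (1 / ((j : ℝ) + 1)) e Q hρ hρ1 hA'ρ (by positivity) he he' hQ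
  choose c θ K hc hθ hK hcount using hj
  have hS0 : 0 < e + κ * D := by positivity
  have hSD : e + κ * D < D := by linarith
  obtain ⟨g, hg1, hg2⟩ := exists_between (show 1 < D / (e + κ * D) by rwa [one_lt_div hS0])
  rw [lt_div_iff₀ hS0] at hg2
  have hg0 : 0 < g := by linarith
  have hsub : {α : ℝ | 1 < α ∧ ¬ ∀ ξ ∈ Ξ, Regular Q A κ (fun n => α ^ w n) (fun n (_ : Fin 1) => ξ * α ^ w n)} ⊆
      ⋃ ξ ∈ Ξ, ⋃ l : ℤ, ⋃ j : ℕ, {α : ℝ | (Real.exp (g ^ l) ≤ α ∧ α ≤ Real.exp (g ^ (l + 1))) ∧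
        ∃ᶠ n : ℕ in atTop, ∃ m : Fin 1 → ℤ,
        (∀ i, |(m i : ℝ) - ξ * α ^ w n| ≤ (Real.exp (g ^ (l + 1)) ^ w n) ^ κ) ∧ m ∈ {m : Fin 1 → ℤ | (∀ i, m i ≠ 0) ∧
          Bad Q A' (c j) (θ j) (1 / ((j : ℝ) + 1)) ⌈(|ξ| + 1) * Real.exp (g ^ (l + 1)) ^ w n⌉₊ m}} := by
    rintro α ⟨hα, hx⟩
    push Not at hx
    obtain ⟨ξ, hξ, hx⟩ := hx
    rw [Set.mem_iUnion₂]
    refine ⟨ξ, hξ, ?_⟩
    by_contra hcon
    apply hx
    rw [Set.mem_iUnion] at hcon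
    push Not at hcon
    have hlα : 0 < Real.log α := Real.log_pos hα
    obtain ⟨l, hl1, hl2⟩ := exists_mem_Ico_zpow hlα hg1
    have hα0 : 0 < α := by linarith
    have hu : Real.exp (g ^ l) ≤ α := by rwa [← Real.le_log_iff_exp_le hα0]
    have hv : α ≤ Real.exp (g ^ (l + 1)) := by
      rw [← Real.log_le_iff_le_exp hα0]
      exact hl2.le
    have h1 := hcon l
    rw [Set.mem_iUnion] at h1
    push Not at h1
    intro η hη
    obtain ⟨j, hj⟩ := exists_nat_one_div_lt hη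
    have h2 := h1 j
    rw [Set.mem_ofPred_eq] at h2
    push Not at h2
    have h3 := h2 ⟨hu, hv⟩
    refine ⟨min (c j) (θ j), lt_min (hc j) (hθ j), ?_⟩
    have hwt : Tendsto w atTop atTop := by
      rw [tendsto_atTop]
      intro B
      have hlogt : Tendsto (fun n : ℕ => Real.log (n : ℝ)) atTop atTop :=
        Real.tendsto_log_atTop.comp tendsto_natCast_atTop_atTop
      filter_upwards [hlim.eventually_ge_atTop (max B 0), hlogt.eventually_ge_atTop 1] with n h1 h2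
      rw [le_div_iff₀ (by linarith)] at h1
      have h3 : max B 0 ≤ max B 0 * Real.log n := le_mul_of_one_le_right (le_max_right _ _) h2
      have h4 := le_max_left B 0
      linarith
    have hWt : Tendsto (fun n => α ^ w n) atTop atTop := by
      have h4 : (fun n => α ^ w n) = fun n => Real.exp (Real.log α * w n) := by
        funext n
        rw [Real.rpow_def_of_pos hα0]
      rw [h4]
      exact Real.tendsto_exp_atTop.comp (hwt.const_mul_atTop hlα)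
    filter_upwards [h3, hWt.eventually (transfer (k := 1) Q (η := 1 / ((j : ℝ) + 1)) hA'0 hA'A (hc j) (hθ j)
      (show (1 : ℝ) ≤ g + 1 by linarith)), hWt.eventually_ge_atTop (|ξ| + 2)] with n h4 h5 h6 m d hmd
    have hξ0 : (0 : ℝ) ≤ |ξ| := abs_nonneg ξ
    have hwn := hw n
    have hW1 : 1 ≤ α ^ w n := by linarith
    have hWv : α ^ w n ≤ Real.exp (g ^ (l + 1)) ^ w n := Real.rpow_le_rpow hα0.le hv (by linarith)
    have hvW : Real.exp (g ^ (l + 1)) ^ w n ≤ (α ^ w n) ^ g := by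
      have e1 : Real.exp (g ^ (l + 1)) = Real.exp (g ^ l) ^ g := by
        rw [← Real.exp_mul, zpow_add_one₀ hg0.ne']
      rw [e1, ← Real.rpow_mul (Real.exp_pos _).le, mul_comm g, Real.rpow_mul (Real.exp_pos _).le]
      refine Real.rpow_le_rpow (by positivity) (Real.rpow_le_rpow (Real.exp_pos _).le hu (by linarith)) hg0.le
    have h7 := h4 m (fun i => (hmd i).2.1.trans (Real.rpow_le_rpow (by linarith) hWv hκ0))
    have h8 : ¬ Bad Q A' (c j) (θ j) (1 / ((j : ℝ) + 1)) _ m := fun hB => h7 ⟨fun i => (hmd i).1, hB⟩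
    have hX1 : α ^ w n ≤ (⌈(|ξ| + 1) * Real.exp (g ^ (l + 1)) ^ w n⌉₊ : ℝ) := by
      refine le_trans ?_ (Nat.le_ceil _)
      nlinarith
    have hX2 : (⌈(|ξ| + 1) * Real.exp (g ^ (l + 1)) ^ w n⌉₊ : ℝ) ≤ (α ^ w n) ^ (g + 1) := by
      have h9 := Nat.ceil_lt_add_one (show 0 ≤ (|ξ| + 1) * Real.exp (g ^ (l + 1)) ^ w n by positivity)
      rw [Real.rpow_add_one (by positivity)]
      nlinarith
    obtain ⟨h10, h11⟩ := h5 _ hX1 hX2 m h8 d (fun i => (hmd i).2.2)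
    refine ⟨h10, fun y s hy1 hy2 => (h11 y s hy1 hy2).trans ?_⟩
    exact mul_le_mul_of_nonneg_right hj.le (Nat.cast_nonneg _)
  refine (dimH_mono hsub).trans ?_
  rw [dimH_bUnion hΞ]
  refine iSup₂_le fun ξ hξ => ?_
  rw [dimH_iUnion]
  refine iSup_le fun l => ?_
  rw [dimH_iUnion]
  refine iSup_le fun j => ?_
  have hgl : 0 < g ^ l := zpow_pos hg0 l
  refine pow_dim (fun X => {m : Fin 1 → ℤ | (∀ i, m i ≠ 0) ∧ Bad Q A' (c j) (θ j) (1 / ((j : ℝ) + 1)) X m})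
    (s := e) (κ := κ) (K := K j) (by linarith) hκ0 (hK j).le hD0 ?_ hκ.le (Real.one_lt_exp_iff.2 hgl) ?_ ?_ (hΞ0 ξ hξ)
    w hw hlim
  · intro X hX T hT
    have h1 := hcount j X hX T (fun m hm => ⟨fun i => ⟨(hT m hm).2.1 i, (hT m hm).1 i⟩, (hT m hm).2.2⟩)
    have e1 : (((1 : ℕ) : ℝ)) - 1 + e = e := by push_cast; ring
    rwa [e1] at h1
  · refine Real.exp_le_exp.2 ?_
    rw [zpow_add_one₀ hg0.ne']
    nlinarith
  · rw [Real.log_exp, Real.log_exp, zpow_add_one₀ hg0.ne']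
    nlinarith

end Pool.Agent.U265.MS
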