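import Pool.Agent.U265.MS.Reg
import Pool.Agent.R485.RG.Mtp

/-!
# The thresholds of the question, and the optimality of the dimension (helper265)
-/

set_option autoImplicit false

namespace Pool.Agent.U265.MS

open Finset Filter Topology Pool.Agent.U61.JS
open Pool.Agent.Y549.SP (primesIn Thick)
open scoped ENNReal

lemma disc_abs_le' {m d : ℤ} (h : IsDisc m d) : |(d : ℝ)| ≤ 4 * |(m : ℝ)| := by
  have h1 := disc_abs_le (X := m.natAbs) h (by rw [Int.abs_eq_natAbs])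
  have h2 : ((|d| : ℤ) : ℝ) ≤ ((4 * (m.natAbs : ℤ) : ℤ) : ℝ) := by exact_mod_cast h1
  rw [Int.cast_abs] at h2
  refine h2.trans (le_of_eq ?_)
  push_cast
  rfl

lemma thr_range {k : ℕ} (hk : 1 ≤ k) {c : ℝ} (hc : 0 < c) :
    ∀ᶠ W : ℝ in atTop, ∀ d : Fin k → ℤ, (∀ i, W ^ c ≤ |(d i : ℝ)| ∧ |(d i : ℝ)| ≤ W ^ (2 : ℝ)) →
      ∃ y : ℕ, Real.log W ^ (2 : ℝ) ≤ y ∧ (y : ℝ) ≤ W ^ c ∧ ∀ p : ℕ, p ≤ y ↔ ∀ i, (p : ℝ) < thr (d i) := by
  obtain ⟨a, ha⟩ : ∃ a : ℝ, a = min c 1 := ⟨_, rfl⟩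
  have ha0 : 0 < a := by rw [ha]; exact lt_min hc one_pos
  have ha1 : a ≤ 1 := by rw [ha]; exact min_le_right _ _
  have hac : a ≤ c := by rw [ha]; exact min_le_left _ _
  have hev1 : ∀ᶠ L : ℝ in atTop, ‖L ^ 4‖ ≤ (1 / 16) * ‖Real.exp (c * L)‖ :=
    (isLittleO_pow_exp_pos_mul_atTop (k := 4) hc).def (by norm_num)
  have hev2 : ∀ᶠ L : ℝ in atTop, 16 / a ^ 2 - 2 * Real.log a + 4 ≤ Real.log L :=
    Real.tendsto_log_atTop.eventually (eventually_ge_atTop _)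
  filter_upwards [Real.tendsto_log_atTop.eventually (hev1.and (hev2.and (eventually_ge_atTop 2))),
    eventually_ge_atTop 1] with W hW hW1 d hd
  obtain ⟨e1, e2, e3⟩ := hW
  have hWp : 0 < W := by linarith
  obtain ⟨L, hL⟩ : ∃ L : ℝ, L = Real.log W := ⟨_, rfl⟩
  obtain ⟨l, hl⟩ : ∃ l : ℝ, l = Real.log L := ⟨_, rfl⟩
  rw [← hL] at e1 e2 e3
  rw [← hl] at e2
  have hL0 : 0 < L := by linarith
  have hla : Real.log a ≤ 0 := Real.log_nonpos ha0.le ha1
  have h16 : 16 ≤ 16 / a ^ 2 := by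
    rw [le_div_iff₀ (by positivity)]
    have : a ^ 2 ≤ 1 := pow_le_one₀ ha0.le ha1
    linarith
  have hl1 : 16 / a ^ 2 ≤ l := by linarith
  have hl2 : -Real.log a ≤ l / 2 := by linarith
  have hl20 : 16 ≤ l := h16.trans hl1
  have hlL : l ≤ L := by
    rw [hl]
    have := Real.log_le_sub_one_of_pos hL0
    linarith
  have hth : ∀ i, (a * L) ^ 2 * (l / 2) ^ 2 ≤ thr (d i) ∧ thr (d i) ≤ (2 * L) ^ 2 * (2 * l) ^ 2 := by
    intro i
    obtain ⟨h1, h2⟩ := hd i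
    have hdp : 0 < |(d i : ℝ)| := lt_of_lt_of_le (by positivity) h1
    have g1 : a * L ≤ Real.log |(d i : ℝ)| := by
      have := Real.log_le_log (by positivity) h1
      rw [Real.log_rpow hWp, ← hL] at this
      nlinarith
    have g2 : Real.log |(d i : ℝ)| ≤ 2 * L := by
      have := Real.log_le_log hdp h2
      rwa [Real.log_rpow hWp, ← hL] at this
    obtain ⟨u, hu⟩ : ∃ u : ℝ, u = Real.log |(d i : ℝ)| := ⟨_, rfl⟩
    rw [← hu] at g1 g2
    have hu0 : 0 < u := lt_of_lt_of_le (by positivity) g1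
    have g3 : l / 2 ≤ Real.log u := by
      have h3 : Real.log (a * L) ≤ Real.log u := Real.log_le_log (by positivity) g1
      rw [Real.log_mul ha0.ne' hL0.ne', ← hl] at h3
      linarith
    have g4 : Real.log u ≤ 2 * l := by
      have h3 : Real.log u ≤ Real.log (2 * L) := Real.log_le_log hu0 g2
      rw [Real.log_mul (by norm_num) hL0.ne', ← hl] at h3
      have := Real.log_two_lt_d9
      linarith
    unfold thr
    rw [← hu]
    have hl2' : 0 ≤ l / 2 := by linarith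
    constructor
    · exact mul_le_mul (pow_le_pow_left₀ (by positivity) g1 2) (pow_le_pow_left₀ hl2' g3 2)
        (by positivity) (by positivity)
    · exact mul_le_mul (pow_le_pow_left₀ hu0.le g2 2) (pow_le_pow_left₀ (by linarith) g4 2)
        (by positivity) (by positivity)
  obtain ⟨i₁, -, hi₁⟩ := exists_min_image (univ : Finset (Fin k)) (fun i => thr (d i))
    ⟨⟨0, hk⟩, mem_univ _⟩
  obtain ⟨t1, t2⟩ := hth i₁
  obtain ⟨T, hT⟩ : ∃ T : ℝ, T = thr (d i₁) := ⟨_, rfl⟩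
  rw [← hT] at t1 t2
  have hL2 : 4 ≤ L ^ 2 := by nlinarith
  have hal : 16 ≤ a ^ 2 * l := by
    rw [div_le_iff₀ (by positivity)] at hl1
    linarith
  have hT1 : L ^ 2 * 2 ≤ T := by
    have h1 : (a * L) ^ 2 * (l / 2) ^ 2 = L ^ 2 * ((a ^ 2 * l) * (l / 4)) := by ring
    rw [h1] at t1
    have h2 : (2 : ℝ) ≤ (a ^ 2 * l) * (l / 4) := by nlinarith
    nlinarith
  have hT0 : 0 < T := by nlinarith
  obtain ⟨y, hy⟩ : ∃ y : ℕ, y = ⌈T⌉₊ - 1 := ⟨_, rfl⟩
  have hc1 : 1 ≤ ⌈T⌉₊ := Nat.one_le_ceil_iff.mpr hT0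
  have hy1 : ∀ p : ℕ, p ≤ y ↔ (p : ℝ) < T := by
    intro p
    rw [← Nat.lt_ceil, hy]
    omega
  have hylt : (y : ℝ) < T := (hy1 y).mp le_rfl
  have hyge : T ≤ y + 1 := by
    have h1 : ¬ (y + 1 ≤ y) := by omega
    rw [hy1] at h1
    push_cast at h1
    exact not_lt.mp h1
  refine ⟨y, ?_, ?_, ?_⟩
  · rw [← hL]
    have e4 : L ^ (2 : ℝ) = L ^ 2 := by
      rw [← Real.rpow_natCast]; norm_num
    rw [e4]
    linarith
  · have h1 : W ^ c = Real.exp (c * L) := by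
      rw [Real.rpow_def_of_pos hWp, ← hL, mul_comm]
    rw [h1]
    rw [Real.norm_of_nonneg (by positivity), Real.norm_of_nonneg (Real.exp_pos _).le] at e1
    have h2 : (2 * L) ^ 2 * (2 * l) ^ 2 ≤ 16 * L ^ 4 := by
      have h3 : l ^ 2 ≤ L ^ 2 := pow_le_pow_left₀ (by linarith) hlL 2
      nlinarith [sq_nonneg L]
    linarith
  · intro p
    rw [hy1]
    constructor
    · intro h i
      exact lt_of_lt_of_le h (by rw [hT]; exact hi₁ i (mem_univ _))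
    · intro h
      rw [hT]
      exact h i₁

lemma many_primes {Q : Set ℕ} {ρ : ℝ} (hρ : 0 < ρ) (hQ : Thick Q ρ) (M : ℕ) :
    ∀ᶠ y : ℕ in atTop, M ≤ (primesIn Q y).ncard := by
  obtain ⟨κ₀, hκ₀, y₀, hy₀⟩ := hQ
  have h1 := (isLittleO_log_rpow_atTop (r := ρ) hρ).bound (c := κ₀ / (M + 1)) (by positivity)
  filter_upwards [tendsto_natCast_atTop_atTop.eventually h1, eventually_ge_atTop (max y₀ 2)] with y h2 h3
  have hy2 : (2 : ℝ) ≤ y := by exact_mod_cast (le_max_right _ _).trans h3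
  have hly : 0 < Real.log (y : ℝ) := Real.log_pos (by linarith)
  rw [Real.norm_of_nonneg hly.le, Real.norm_of_nonneg (Real.rpow_nonneg (Nat.cast_nonneg _) _),
    div_mul_eq_mul_div, le_div_iff₀ (by positivity)] at h2
  have h4 := hy₀ y ((le_max_left _ _).trans h3)
  have h5 : ((M : ℝ) + 1) * Real.log y ≤ (primesIn Q y).ncard * Real.log y := by linarith
  have h6 := le_of_mul_le_mul_right h5 hly
  have h7 : ((M : ℝ)) ≤ (primesIn Q y).ncard := by linarith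
  exact_mod_cast h7

/-- the range of the question -/
def QRange {k : ℕ} (Q : Set ℕ) (κ : ℝ) (W : ℕ → ℝ) (x : ℕ → Fin k → ℝ) : Prop :=
  ∀ (η : ℝ) (M : ℕ), 0 < η → ∀ᶠ n : ℕ in atTop, ∀ m d : Fin k → ℤ,
    (∀ i, m i ≠ 0 ∧ |(m i : ℝ) - x n i| ≤ W n ^ κ ∧ IsDisc (m i) (d i)) →
      M ≤ MP Q d ∧ ∀ s : Fin k → Bool, |2 ^ k * (NP Q d s : ℝ) - MP Q d| ≤ η * MP Q d

theorem thr_main {k : ℕ} (hk : 1 ≤ k) {Q : Set ℕ} {ρ κ C : ℝ} (hρ : 0 < ρ) (hQ : Thick Q ρ) (hκ : κ ≤ 1)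
    {W : ℕ → ℝ} (hW : Tendsto W atTop atTop) {x : ℕ → Fin k → ℝ} (hx : ∀ n i, |x n i| ≤ C * W n)
    (h : Regular Q 2 κ W x) : QRange Q κ W x := by
  intro η M hη
  obtain ⟨c, hc, hreg⟩ := h η hη
  obtain ⟨y₁, hy₁⟩ := eventually_atTop.1 (many_primes hρ hQ M)
  have hlogW : Tendsto (fun n => Real.log (W n)) atTop atTop := Real.tendsto_log_atTop.comp hW
  filter_upwards [hreg, hW.eventually (thr_range hk hc), hW.eventually_ge_atTop (max 1 (4 * (C + 1))),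
    hlogW.eventually_ge_atTop (max 1 (y₁ : ℝ))] with n h1 h2 h3 h4 m d hmd
  have hW1 : 1 ≤ W n := (le_max_left _ _).trans h3
  have hW2 : 4 * (C + 1) ≤ W n := (le_max_right _ _).trans h3
  obtain ⟨g1, g2⟩ := h1 m d hmd
  obtain ⟨y, a1, a2, a3⟩ := h2 d (fun i => ⟨g1 i, by
    obtain ⟨-, b1, b2⟩ := hmd i
    have b3 := disc_abs_le' b2
    have b4 : W n ^ κ ≤ W n := by
      have := Real.rpow_le_rpow_of_exponent_le hW1 hκ
      rwa [Real.rpow_one] at this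
    have b5 : |(m i : ℝ)| ≤ (C + 1) * W n := by
      have b6 := abs_add_le ((m i : ℝ) - x n i) (x n i)
      rw [sub_add_cancel] at b6
      have := hx n i
      linarith
    have e2 : W n ^ (2 : ℝ) = W n * W n := by
      rw [show (2 : ℝ) = ((2 : ℕ) : ℝ) by norm_num, Real.rpow_natCast]
      ring
    rw [e2]
    nlinarith⟩)
  have hyy : y₁ ≤ y := by
    have b1 : (y₁ : ℝ) ≤ Real.log (W n) := (le_max_right _ _).trans h4
    have b2 : 1 ≤ Real.log (W n) := (le_max_left _ _).trans h4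
    have b3 : Real.log (W n) ≤ Real.log (W n) ^ (2 : ℝ) := by
      calc Real.log (W n) = Real.log (W n) ^ (1 : ℝ) := (Real.rpow_one _).symm
        _ ≤ _ := Real.rpow_le_rpow_of_exponent_le b2 (by norm_num)
    exact_mod_cast (b1.trans b3).trans a1
  have s1 : ∀ s, patIn Q d s y = {p : ℕ | p.Prime ∧ p ∈ Q ∧ (∀ i, (p : ℝ) < thr (d i)) ∧ Pt d s p} := by
    intro s
    ext p
    constructor
    · rintro ⟨b1, b2, b3, b4⟩
      exact ⟨b1, b3, (a3 p).mp b2, b4⟩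
    · rintro ⟨b1, b2, b3, b4⟩
      exact ⟨b1, (a3 p).mpr b3, b2, b4⟩
  have s2 : primesIn Q y = {p : ℕ | p.Prime ∧ p ∈ Q ∧ ∀ i, (p : ℝ) < thr (d i)} := by
    ext p
    constructor
    · rintro ⟨b1, b2, b3⟩
      exact ⟨b1, b3, (a3 p).mp b2⟩
    · rintro ⟨b1, b2, b3⟩
      exact ⟨b1, (a3 p).mpr b3, b2⟩
  have hMP : MP Q d = (primesIn Q y).ncard := by
    unfold MP
    rw [s2]
  refine ⟨?_, fun s => ?_⟩
  · rw [hMP]
    exact hy₁ y hyy
  · have b1 := g2 y s a1 a2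
    rw [hMP]
    unfold NP
    rw [← s1]
    exact b1

/-! ### The optimality -/

lemma isDisc_sq {j : ℤ} (hj : j ≠ 0) : IsDisc (-j ^ 2) (-4) := by
  refine ⟨Or.inr ⟨-1, by norm_num, Or.inr (by norm_num), ?_⟩, j, hj, by ring⟩
  exact (IsUnit.neg isUnit_one).squarefree

lemma thr_four : thr (-4) < 2 := by
  have h1 : |(((-4 : ℤ)) : ℝ)| = 4 := by norm_num
  unfold thr
  rw [h1]
  have h2 : Real.log 4 = 2 * Real.log 2 := by
    rw [show (4 : ℝ) = 2 ^ 2 by norm_num, Real.log_pow]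
    norm_num
  have h3 := Real.log_two_lt_d9
  have h4 := Real.log_two_gt_d9
  have h5 : Real.log (Real.log 4) ≤ Real.log 4 - 1 := Real.log_le_sub_one_of_pos (by rw [h2]; linarith)
  have h6 : 0 ≤ Real.log (Real.log 4) := Real.log_nonneg (by rw [h2]; linarith)
  have h7 : Real.log 4 ≤ 1.4 := by rw [h2]; linarith
  have h8 : 0 ≤ Real.log 4 := by rw [h2]; linarith
  have h9 : Real.log (Real.log 4) ≤ 0.4 := by linarith
  nlinarith [mul_le_mul (pow_le_pow_left₀ h8 h7 2) (pow_le_pow_left₀ h6 h9 2) (by positivity) (by positivity)]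

lemma mp_four (Q : Set ℕ) : MP Q (fun _ : Fin 1 => (-4 : ℤ)) = 0 := by
  unfold MP
  have h1 : {p : ℕ | p.Prime ∧ p ∈ Q ∧ ∀ _i : Fin 1, (p : ℝ) < thr (-4)} = ∅ := by
    ext p
    simp only [Set.mem_ofPred_eq, Set.mem_empty_iff_false, iff_false, not_and]
    intro hp _ h
    have h2 : (2 : ℝ) ≤ p := by exact_mod_cast hp.two_le
    have h3 := h 0
    have h4 := thr_four
    linarith
  rw [h1, Set.ncard_empty]

/-- the parameters with a square near infinitely many of the multiples -/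
lemma squares_dim (w : ℕ → ℝ) (hw : Tendsto w atTop atTop) :
    ENNReal.ofReal (1 / 2) ≤ dimH {x : ℝ | 0 < x ∧ ∃ᶠ n : ℕ in atTop, ∃ j : ℕ, 1 ≤ j ∧ |w n * x - (j : ℝ) ^ 2| ≤ 1} := by
  refine le_of_forall_lt fun b hb => ?_
  have hbt : b ≠ ⊤ := ne_top_of_lt hb
  have hb1 : b.toReal < 1 / 2 := by
    rw [← ENNReal.ofReal_toReal hbt] at hb
    exact (ENNReal.ofReal_lt_ofReal_iff (by norm_num)).1 hb
  obtain ⟨t, ht1, ht2⟩ := exists_between hb1
  have ht0 : 0 < t := lt_of_le_of_lt ENNReal.toReal_nonneg ht1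
  have hkey : ENNReal.ofReal t ≤
      dimH {x : ℝ | 0 < x ∧ ∃ᶠ n : ℕ in atTop, ∃ j : ℕ, 1 ≤ j ∧ |w n * x - (j : ℝ) ^ 2| ≤ 1} := by
    set C : ℕ → ℕ → Set ℝ := fun _ k => {c | ∃ j : ℕ, 1 ≤ j ∧ c = (j : ℝ) ^ 2 / max (w k) 1} with hC
    set r : ℕ → ℕ → ℝ := fun _ k => 4 * (max (w k) 1) ^ (-(1 / 2) : ℝ) with hr
    have hmax : Tendsto (fun k => max (w k) 1) atTop atTop := tendsto_atTop_mono (fun k => le_max_left _ _) hw
    have hm1 : ∀ k, 1 ≤ max (w k) 1 := fun k => le_max_right _ _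
    have hrpos : ∀ i k, 0 < r i k := fun i k => by
      have := hm1 k
      simp only [hr]
      positivity
    have hd := Pool.Agent.R485.RG.dimI ht0 (by linarith) C r hrpos (fun i => by
      have h1 : Tendsto (fun k => (max (w k) 1) ^ (-(1 / 2) : ℝ)) atTop (𝓝 0) :=
        (tendsto_rpow_neg_atTop (by norm_num)).comp hmax
      have h2 := h1.const_mul 4
      rw [mul_zero] at h2
      exact h2) (fun i => by
      refine Eventually.of_forall fun x hx => Eventually.frequently ?_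
      refine Eventually.of_forall fun k => ?_
      set W := max (w k) 1 with hW
      have hW1 : 1 ≤ W := hm1 k
      have hW0 : 0 < W := by linarith
      obtain ⟨z, hz⟩ : ∃ z : ℝ, z = Real.sqrt (x * W) := ⟨_, rfl⟩
      have hxW : 0 < x * W := mul_pos hx.1 hW0
      have hz0 : 0 < z := by rw [hz]; exact Real.sqrt_pos.2 hxW
      have hz2 : z ^ 2 = x * W := by rw [hz]; exact Real.sq_sqrt hxW.le
      obtain ⟨q, hq⟩ : ∃ q : ℝ, q = Real.sqrt W := ⟨_, rfl⟩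
      have hq0 : 0 < q := by rw [hq]; exact Real.sqrt_pos.2 hW0
      have hq2 : q ^ 2 = W := by rw [hq]; exact Real.sq_sqrt hW0.le
      have hq1 : 1 ≤ q := by nlinarith
      have hzq : z ≤ q := by
        rw [hz, hq]
        refine Real.sqrt_le_sqrt ?_
        nlinarith [hx.2]
      refine ⟨(⌈z⌉₊ : ℝ) ^ 2 / W, ⟨⌈z⌉₊, Nat.one_le_ceil_iff.2 hz0, rfl⟩, ?_⟩
      have h1 : z ≤ ⌈z⌉₊ := Nat.le_ceil z
      have h2 : (⌈z⌉₊ : ℝ) < z + 1 := Nat.ceil_lt_add_one hz0.le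
      have h3 : x - (⌈z⌉₊ : ℝ) ^ 2 / W = -(((⌈z⌉₊ : ℝ) ^ 2 - z ^ 2) / W) := by
        rw [hz2]
        field_simp
        ring
      have h4 : 0 ≤ (⌈z⌉₊ : ℝ) ^ 2 - z ^ 2 := by nlinarith
      have h5 : (⌈z⌉₊ : ℝ) ^ 2 - z ^ 2 < 4 * q := by nlinarith
      rw [h3, abs_neg, abs_of_nonneg (div_nonneg h4 hW0.le)]
      have h6 : W ^ (-(1 / 2) : ℝ) = q / W := by
        rw [Real.rpow_neg hW0.le, ← Real.sqrt_eq_rpow, ← hq]
        rw [← hq2]
        field_simp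
      simp only [hr]
      rw [← hW, h6, ← mul_div_assoc]
      exact div_lt_div_of_pos_right h5 hW0)
    have hsub : {x : ℝ | x ∈ Set.Icc (0 : ℝ) 1 ∧ ∀ i : ℕ, ∃ᶠ k in atTop, ∃ c ∈ C i k, |x - c| < r i k ^ (1 / t)} ⊆
        {0} ∪ {x : ℝ | 0 < x ∧ ∃ᶠ n : ℕ in atTop, ∃ j : ℕ, 1 ≤ j ∧ |w n * x - (j : ℝ) ^ 2| ≤ 1} := by
      rintro x ⟨hx, hfr⟩
      rcases hx.1.eq_or_lt with h0 | h0
      · left
        exact h0.symm
      right
      refine ⟨h0, ?_⟩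
      have hex : 0 < 1 / t / 2 - 1 := by
        have : 2 < 1 / t := by rw [lt_div_iff₀ ht0]; linarith
        linarith
      have hev : ∀ᶠ k in atTop, (4 : ℝ) ^ (1 / t) ≤ (max (w k) 1) ^ (1 / t / 2 - 1) :=
        ((tendsto_rpow_atTop hex).comp hmax).eventually_ge_atTop _
      refine ((hfr 0).and_eventually (hev.and (hw.eventually_ge_atTop 1))).mono ?_
      rintro k ⟨⟨c, ⟨j, hj, rfl⟩, hlt⟩, h1, h2⟩
      refine ⟨j, hj, ?_⟩
      simp only [hr] at hlt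
      rw [max_eq_left h2] at hlt h1
      have hW0 : 0 < w k := by linarith
      have h3 : (4 * w k ^ (-(1 / 2) : ℝ)) ^ (1 / t) ≤ (w k)⁻¹ := by
        rw [Real.mul_rpow (by norm_num) (Real.rpow_nonneg hW0.le _), ← Real.rpow_mul hW0.le]
        calc (4 : ℝ) ^ (1 / t) * w k ^ (-(1 / 2) * (1 / t)) ≤
            (w k) ^ (1 / t / 2 - 1) * w k ^ (-(1 / 2) * (1 / t)) :=
              mul_le_mul_of_nonneg_right h1 (Real.rpow_nonneg hW0.le _)
          _ = (w k) ^ (-1 : ℝ) := by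
              rw [← Real.rpow_add hW0]
              congr 1
              ring
          _ = (w k)⁻¹ := Real.rpow_neg_one _
      have h4 : |x - (j : ℝ) ^ 2 / w k| < (w k)⁻¹ := lt_of_lt_of_le hlt h3
      have h5 : w k * x - (j : ℝ) ^ 2 = w k * (x - (j : ℝ) ^ 2 / w k) := by
        field_simp
      rw [h5, abs_mul, abs_of_pos hW0]
      have h6 : w k * |x - (j : ℝ) ^ 2 / w k| < w k * (w k)⁻¹ := mul_lt_mul_of_pos_left h4 hW0
      rw [mul_inv_cancel₀ hW0.ne'] at h6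
      exact h6.le
    have h1 := hd.trans (dimH_mono hsub)
    rw [dimH_union, dimH_singleton] at h1
    simpa using h1
  refine lt_of_lt_of_le ?_ hkey
  rw [← ENNReal.ofReal_toReal hbt]
  exact (ENNReal.ofReal_lt_ofReal_iff ht0).2 ht1

theorem sharp (w : ℕ → ℝ) (hw : Tendsto w atTop atTop) (Q : Set ℕ) :
    ENNReal.ofReal (1 / 2) ≤ dimH {x : Fin 1 → ℝ | (∀ i, x i < 0) ∧ ¬ QRange Q 0 w (fun n i => w n * x i)} := by
  have hiso : Isometry (fun y : ℝ => (fun _ : Fin 1 => -y)) := by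
    refine Isometry.of_dist_eq fun a b => ?_
    rw [dist_pi_const, dist_neg_neg]
  refine (squares_dim w hw).trans ?_
  rw [← hiso.dimH_image]
  refine dimH_mono ?_
  rintro _ ⟨x, ⟨hx0, hx⟩, rfl⟩
  refine ⟨fun i => by simpa using hx0, fun hQR => ?_⟩
  have h1 := hQR 1 1 one_pos
  obtain ⟨n, ⟨j, hj, hn⟩, h2⟩ := (hx.and_eventually h1).exists
  have hj0 : (j : ℤ) ≠ 0 := by exact_mod_cast (by omega : j ≠ 0)
  obtain ⟨h3, -⟩ := h2 (fun _ => -(j : ℤ) ^ 2) (fun _ => -4) (fun i => ⟨by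
    simpa using hj0, by
    rw [Real.rpow_zero]
    push_cast
    rw [show -(j : ℝ) ^ 2 - w n * -x = w n * x - (j : ℝ) ^ 2 by ring]
    exact hn, isDisc_sq hj0⟩)
  rw [mp_four] at h3
  omega

end Pool.Agent.U265.MS
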