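import Pool.Agent.U265.MS.Disc

/-!
# Radicands with a large twisted sum, and bad tuples of radicands (helper265)
-/

set_option autoImplicit false

namespace Pool.Agent.U265.MS

open Finset Filter Pool.Agent.Y549.SP Pool.Agent.U61.JS

theorem rad_twist (A ρ η θ e : ℝ) (Q : Set ℕ) (hρ : 0 < ρ) (hρ1 : ρ ≤ 1) (hAρ : 1 < A * ρ) (hη : 0 < η)
    (hθ : 0 < θ) (he : 1 / 2 < e) (he' : 1 - ρ + 1 / A < e) (hQ : Thick Q ρ) :
    ∃ c K : ℝ, 0 < c ∧ 0 < K ∧ ∀ (D : ℤ) (X : ℕ), 1 ≤ X → ∀ T : Finset ℤ,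
      (∀ m ∈ T, m ≠ 0 ∧ |m| ≤ X ∧ ∃ d : ℤ, IsDisc m d ∧ (X : ℝ) ^ θ ≤ |(d : ℝ)| ∧ ∃ y : ℕ,
        Real.log (8 * X) ^ A ≤ y ∧ (y : ℝ) ≤ (X : ℝ) ^ c ∧
        η * (primesIn Q y).ncard < |(js Q (D * d) y : ℝ)|) →
      (T.card : ℝ) ≤ K * (X : ℝ) ^ e := by
  have hA0 : 0 < A := by
    by_contra h
    push Not at h
    nlinarith
  obtain ⟨c, K, hc, hK, h⟩ := twist A ρ η (e - (1 - ρ + 1 / A)) Q hρ hρ1 hAρ hη (by linarith) hQ
  obtain ⟨C, hC, hR⟩ := rad_count he
  refine ⟨θ * c, C * K, by positivity, by positivity, fun D X hX T hT => ?_⟩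
  have hX1 : (1 : ℝ) ≤ X := by exact_mod_cast hX
  have hXp : (0 : ℝ) < X := by linarith
  refine hR X K {d : ℤ | Fund d ∧ (X : ℝ) ^ θ ≤ |(d : ℝ)| ∧ ∃ y : ℕ, Real.log (8 * X) ^ A ≤ y ∧
    (y : ℝ) ≤ (X : ℝ) ^ (θ * c) ∧ η * (primesIn Q y).ncard < |(js Q (D * d) y : ℝ)|} hK.le ?_ T ?_
  · intro Y hY hYX T' hT'
    have e1 : 1 - ρ + 1 / A + (e - (1 - ρ + 1 / A)) = e := by ring
    have h1 := h D Y hY T' ?_
    · rwa [e1] at h1
    · intro d hd
      obtain ⟨⟨hF, hdX, y, hy1, hy2, hy3⟩, hdY⟩ := hT' d hd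
      refine ⟨⟨hF, hdY⟩, y, ?_, ?_, hy3⟩
      · refine le_trans (Real.rpow_le_rpow ?_ ?_ hA0.le) hy1
        · exact Real.log_nonneg (by exact_mod_cast hY)
        · refine Real.log_le_log (by exact_mod_cast hY) ?_
          have : (Y : ℝ) ≤ 4 * X := by exact_mod_cast hYX
          linarith
      · refine hy2.trans ?_
        rw [Real.rpow_mul hXp.le]
        refine Real.rpow_le_rpow (by positivity) (hdX.trans ?_) hc.le
        rw [← Int.cast_abs]
        exact_mod_cast hdY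
  · intro m hm
    obtain ⟨h1, h2, d, h3, h4, y, h5, h6, h7⟩ := hT m hm
    exact ⟨h1, h2, d, ⟨h3.1, h4, y, h5, h6, h7⟩, h3⟩

/-- the bad tuples of radicands at the level `X` -/
def Bad {k : ℕ} (Q : Set ℕ) (A c θ η : ℝ) (X : ℕ) (m : Fin k → ℤ) : Prop :=
  ∃ d : Fin k → ℤ, (∀ i, IsDisc (m i) (d i)) ∧ ((∃ i, |(d i : ℝ)| < (X : ℝ) ^ θ) ∨
    ∃ (y : ℕ) (s : Fin k → Bool), Real.log (8 * X) ^ A ≤ y ∧ (y : ℝ) ≤ (X : ℝ) ^ c ∧
      η * (primesIn Q y).ncard < |2 ^ k * ((patIn Q d s y).ncard : ℝ) - (primesIn Q y).ncard|)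

lemma bad_mono {k : ℕ} {Q : Set ℕ} {A c c' θ θ' η : ℝ} {X : ℕ} (hX : 1 ≤ X) (hc : c' ≤ c) (hθ : θ' ≤ θ)
    {m : Fin k → ℤ} (h : Bad Q A c' θ' η X m) : Bad Q A c θ η X m := by
  have hX1 : (1 : ℝ) ≤ X := by exact_mod_cast hX
  obtain ⟨d, hd, h⟩ := h
  refine ⟨d, hd, ?_⟩
  rcases h with ⟨i, hi⟩ | ⟨y, s, h1, h2, h3⟩
  · exact Or.inl ⟨i, hi.trans_le (Real.rpow_le_rpow_of_exponent_le hX1 hθ)⟩
  · exact Or.inr ⟨y, s, h1, h2.trans (Real.rpow_le_rpow_of_exponent_le hX1 hc), h3⟩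

/-- the number of the bad tuples of radicands -/
theorem rad_joint (k : ℕ) (hk : 1 ≤ k) (A ρ η e : ℝ) (Q : Set ℕ) (hρ : 0 < ρ) (hρ1 : ρ ≤ 1)
    (hAρ : 1 < A * ρ) (hη : 0 < η) (he : 1 / 2 < e) (he' : 1 - ρ + 1 / A < e) (hQ : Thick Q ρ) :
    ∃ c θ K : ℝ, 0 < c ∧ 0 < θ ∧ 0 < K ∧ ∀ X : ℕ, 1 ≤ X → ∀ T : Finset (Fin k → ℤ),
      (∀ m ∈ T, (∀ i, m i ≠ 0 ∧ |m i| ≤ X) ∧ Bad Q A c θ η X m) →
      (T.card : ℝ) ≤ K * (X : ℝ) ^ ((k : ℝ) - 1 + e) := by
  classical
  obtain ⟨κ₀, hκ₀, y₀, hy₀⟩ := hQ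
  have hA1 : 1 < A := by nlinarith
  have hA0 : (0 : ℝ) < A := by linarith
  have hiA : 0 < 1 / A := by positivity
  obtain ⟨n, rfl⟩ : ∃ n, k = n + 1 := ⟨k - 1, by omega⟩
  have h2k : (1 : ℝ) ≤ 2 ^ (n + 1) := one_le_pow₀ (by norm_num)
  obtain ⟨η₂, hη₂def⟩ : ∃ η₂ : ℝ, η₂ = η / (2 * 2 ^ (n + 1)) := ⟨_, rfl⟩
  have hη₂ : 0 < η₂ := by rw [hη₂def]; positivity
  obtain ⟨θ, hθdef⟩ : ∃ θ : ℝ, θ = (e - 1 / 2) / 2 := ⟨_, rfl⟩
  have hθ : 0 < θ := by rw [hθdef]; linarith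
  obtain ⟨e₁, he₁def⟩ : ∃ e₁ : ℝ, e₁ = 1 / 2 + (e - 1 / 2) / 2 := ⟨_, rfl⟩
  have he₁ : 1 / 2 < e₁ := by rw [he₁def]; linarith
  obtain ⟨c, K₀, hc, hK₀, hT₀⟩ := rad_twist A ρ η₂ θ e Q hρ hρ1 hAρ hη₂ hθ he he' ⟨κ₀, hκ₀, y₀, hy₀⟩
  obtain ⟨C₁, hC₁, hS₁⟩ := small_rad he₁
  obtain ⟨κ, hκdef⟩ : ∃ κ : ℝ, κ = min κ₀ 1 / 4 := ⟨_, rfl⟩
  have hκ : 0 < κ := by
    have := lt_min hκ₀ one_pos
    rw [hκdef]
    positivity
  obtain ⟨C, hCdef⟩ : ∃ C : ℝ, C = 2 ^ (n + 1) * (1 + ((n + 1 : ℕ) : ℝ) * 2) + 1 := ⟨_, rfl⟩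
  have hC : 0 < C := by rw [hCdef]; positivity
  obtain ⟨y₁, hy₁⟩ := eventually_atTop.1 (CNT2.step1 hρ hκ₀ hy₀)
  obtain ⟨y₂, hy₂⟩ := eventually_atTop.1 (CNT2.step3 (e := 3 / C * (η / 2 * κ)) hA0 hAρ
    (by positivity))
  have hlogt : Tendsto (fun t : ℕ => Real.log (t : ℝ)) atTop atTop :=
    Real.tendsto_log_atTop.comp tendsto_natCast_atTop_atTop
  obtain ⟨X₀, hX₀⟩ := eventually_atTop.1
    (hlogt.eventually_ge_atTop (max 1 ((max (max y₁ y₂) 2 : ℕ) : ℝ)))
  obtain ⟨G, hG⟩ : ∃ G : ℝ, G = 3 ^ (n + 1) * ((n + 1 : ℕ) * C₁ + 2 ^ (n + 1) * K₀) := ⟨_, rfl⟩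
  have hG0 : 0 < G := by rw [hG]; positivity
  refine ⟨c, θ, (2 * X₀ + 1) ^ (n + 1) + G, hc, hθ, by positivity, ?_⟩
  intro X hX T hT
  have hX1 : (1 : ℝ) ≤ X := by exact_mod_cast hX
  have hXp : (0 : ℝ) < X := by linarith
  have hn0 : (0 : ℝ) ≤ n := Nat.cast_nonneg n
  have ek : (((n + 1 : ℕ) : ℝ)) - 1 + e = n + e := by push_cast; ring
  rw [ek]
  have hbig : (1 : ℝ) ≤ (X : ℝ) ^ (n + e) := Real.one_le_rpow hX1 (by linarith)
  have hIc : ((Icc (-(X : ℤ)) X).card : ℝ) = 2 * X + 1 := by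
    rw [Int.card_Icc]
    have : ((X : ℤ) + 1 - -(X : ℤ)).toNat = 2 * X + 1 := by omega
    rw [this]
    push_cast
    ring
  have hIm : ∀ m ∈ T, ∀ i, m i ∈ Icc (-(X : ℤ)) X := by
    intro m hm i
    have := ((hT m hm).1 i).2
    rw [abs_le] at this
    rw [mem_Icc]
    exact this
  rcases lt_or_ge X X₀ with hlt | hge
  · -- small `X`
    have hTpi : T ⊆ Fintype.piFinset (fun _ : Fin (n + 1) => Icc (-(X : ℤ)) X) := by
      intro m hm
      rw [Fintype.mem_piFinset]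
      exact hIm m hm
    have h1 : (T.card : ℝ) ≤ (2 * X + 1) ^ (n + 1) := by
      have h2 := card_le_card hTpi
      rw [Fintype.card_piFinset_const] at h2
      have h3 : (T.card : ℝ) ≤ ((Icc (-(X : ℤ)) X).card : ℝ) ^ (n + 1) := by exact_mod_cast h2
      rwa [hIc] at h3
    have h2 : ((2 : ℝ) * X + 1) ^ (n + 1) ≤ (2 * X₀ + 1) ^ (n + 1) := by
      refine pow_le_pow_left₀ (by positivity) ?_ _
      have : (X : ℝ) ≤ X₀ := by exact_mod_cast hlt.le
      linarith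
    have h3 : (0 : ℝ) ≤ (2 * X₀ + 1) ^ (n + 1) := by positivity
    nlinarith
  · -- large `X`
    have hlogX := hX₀ X hge
    have hlog1 : 1 ≤ Real.log (X : ℝ) := (le_max_left _ _).trans hlogX
    have hlogM : ((max (max y₁ y₂) 2 : ℕ) : ℝ) ≤ Real.log (X : ℝ) := (le_max_right _ _).trans hlogX
    have hlog8 : Real.log (X : ℝ) ≤ Real.log (8 * X) := Real.log_le_log hXp (by linarith)
    -- the two kinds of bad tuples
    set T₁ : Fin (n + 1) → Finset (Fin (n + 1) → ℤ) := fun i =>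
      T.filter (fun m => |((disc (m i) : ℤ) : ℝ)| < (X : ℝ) ^ θ) with hT₁
    set T₂ : Finset (Fin (n + 1)) → Finset (Fin (n + 1) → ℤ) := fun S =>
      T.filter (fun m => (∀ i, (X : ℝ) ^ θ ≤ |((disc (m i) : ℤ) : ℝ)|) ∧ ∃ y : ℕ,
        Real.log (8 * X) ^ A ≤ y ∧ (y : ℝ) ≤ (X : ℝ) ^ c ∧
        η₂ * (primesIn Q y).ncard < |(jS Q S (fun i => disc (m i)) y : ℝ)|) with hT₂
    have hsub : T ⊆ (univ.biUnion T₁) ∪ (((univ : Finset (Finset (Fin (n + 1)))).erase ∅).biUnion T₂) := by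
      intro m hm
      obtain ⟨hm1, d, hd, hbad⟩ := hT m hm
      have hdd : d = fun i => disc (m i) := by
        funext i
        exact disc_unique (hd i) (disc_spec (hm1 i).1)
      rw [mem_union, mem_biUnion, mem_biUnion]
      by_cases hsm : ∃ i, |((disc (m i) : ℤ) : ℝ)| < (X : ℝ) ^ θ
      · left
        obtain ⟨i, hi⟩ := hsm
        refine ⟨i, mem_univ _, ?_⟩
        rw [hT₁]
        exact mem_filter.2 ⟨hm, hi⟩
      · right
        push Not at hsm
        rcases hbad with ⟨i, hi⟩ | ⟨y, s, hyA, hyc, hyb⟩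
        · exfalso
          rw [hdd] at hi
          exact absurd hi (not_lt.2 (hsm i))
        have hFd : ∀ i, Fund (d i) := fun i => (hd i).1
        have h8X : 1 ≤ Real.log (8 * (X : ℝ)) := hlog1.trans hlog8
        have hlogy : Real.log (8 * (X : ℝ)) ≤ (y : ℝ) := by
          refine le_trans ?_ hyA
          calc Real.log (8 * (X : ℝ)) = Real.log (8 * (X : ℝ)) ^ (1 : ℝ) := (Real.rpow_one _).symm
            _ ≤ _ := Real.rpow_le_rpow_of_exponent_le h8X hA1.le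
        have hMy : max (max y₁ y₂) 2 ≤ y := by
          have h3 : ((max (max y₁ y₂) 2 : ℕ) : ℝ) ≤ (y : ℝ) := (hlogM.trans hlog8).trans hlogy
          exact_mod_cast h3
        have hyy1 : y₁ ≤ y := ((le_max_left _ _).trans (le_max_left _ _)).trans hMy
        have hyy2 : y₂ ≤ y := ((le_max_right _ _).trans (le_max_left _ _)).trans hMy
        have hyy3 : 2 ≤ y := (le_max_right _ _).trans hMy
        have hy2' : (2 : ℝ) ≤ y := by exact_mod_cast hyy3
        have hly : 0 < Real.log (y : ℝ) := Real.log_pos (by linarith)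
        have hk1' := hy₁ y hyy1
        rw [← hκdef] at hk1'
        have hk2 := hy₂ y hyy2
        have hsqy : Real.log (8 * (X : ℝ)) ≤ (y : ℝ) ^ (1 / A) := by
          have h20 := Real.rpow_le_rpow (Real.rpow_nonneg (by linarith) A) hyA
            (show 0 ≤ 1 / A by positivity)
          rwa [← Real.rpow_mul (by linarith), mul_one_div_cancel hA0.ne', Real.rpow_one] at h20
        have hone : (1 : ℝ) ≤ (y : ℝ) ^ (1 / A) := Real.one_le_rpow (by linarith) hiA.le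
        have h7 : C * (y : ℝ) ^ (1 / A) ≤ η / 2 * (oq Q y).card := by
          have h8 : 3 * (C * (y : ℝ) ^ (1 / A)) * Real.log y ≤
              3 * (η / 2 * (oq Q y).card) * Real.log y := by
            have h9 : η / 2 * (κ * (y : ℝ) ^ ρ) ≤ η / 2 * ((oq Q y).card * Real.log y) :=
              mul_le_mul_of_nonneg_left hk1' (by positivity)
            have h10 := mul_le_mul_of_nonneg_left hk2 hC.le
            have h11 : C * (3 / C * (η / 2 * κ) * (y : ℝ) ^ ρ) = 3 * (η / 2 * (κ * (y : ℝ) ^ ρ)) := by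
              field_simp
            rw [h11] at h10
            nlinarith
          have h12 := le_of_mul_le_mul_right h8 hly
          linarith
        have h7' : C * (y : ℝ) ^ (1 / A) ≤ η / 2 * (primesIn Q y).ncard :=
          h7.trans (mul_le_mul_of_nonneg_left eta_le (by positivity))
        have h5 := pattern_count Q d hFd s y
        have hdX : ∀ i, |(d i : ℝ)| ≤ 8 * X := by
          intro i
          have h8 := disc_abs_le (hd i) (hm1 i).2
          have h9 : |(d i : ℝ)| ≤ 4 * X := by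
            rw [← Int.cast_abs]
            exact_mod_cast h8
          linarith
        have hlogd : ∑ i, 2 * Real.log |(d i : ℝ)| ≤ ((n + 1 : ℕ) : ℝ) * 2 * (y : ℝ) ^ (1 / A) := by
          calc ∑ i, 2 * Real.log |(d i : ℝ)| ≤ ∑ i : Fin (n + 1), 2 * (y : ℝ) ^ (1 / A) := by
                refine sum_le_sum fun i _ => ?_
                refine mul_le_mul_of_nonneg_left (le_trans ?_ hsqy) (by norm_num)
                have h6 : (0 : ℝ) < |(d i : ℝ)| := by
                  rw [abs_pos]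
                  exact_mod_cast fund_ne (hFd i)
                exact Real.log_le_log h6 (hdX i)
            _ = _ := by
                rw [sum_const, card_univ, Fintype.card_fin, nsmul_eq_mul]
                ring
        have hmain : 2 ^ (n + 1) * (1 + ∑ i, 2 * Real.log |(d i : ℝ)|) + 1 ≤ C * (y : ℝ) ^ (1 / A) := by
          have h8 : 2 ^ (n + 1) * (1 + ∑ i, 2 * Real.log |(d i : ℝ)|) ≤
              2 ^ (n + 1) * ((y : ℝ) ^ (1 / A) + ((n + 1 : ℕ) : ℝ) * 2 * (y : ℝ) ^ (1 / A)) := by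
            refine mul_le_mul_of_nonneg_left ?_ (by positivity)
            linarith
          have h9 : C * (y : ℝ) ^ (1 / A) =
              2 ^ (n + 1) * ((y : ℝ) ^ (1 / A) + ((n + 1 : ℕ) : ℝ) * 2 * (y : ℝ) ^ (1 / A)) +
                (y : ℝ) ^ (1 / A) := by
            rw [hCdef]; ring
          linarith
        by_contra hcon
        have hsmall : ∀ S ∈ (univ : Finset (Finset (Fin (n + 1)))).erase ∅,
            |(jS Q S d y : ℝ)| ≤ η₂ * (primesIn Q y).ncard := by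
          intro S hS
          by_contra h10
          push Not at h10
          apply hcon
          refine ⟨S, hS, ?_⟩
          rw [hT₂]
          refine mem_filter.2 ⟨hm, hsm, y, hyA, hyc, ?_⟩
          rw [← hdd]
          exact h10
        have hsum : ∑ S ∈ (univ : Finset (Finset (Fin (n + 1)))).erase ∅, |(jS Q S d y : ℝ)| ≤
            η / 2 * (primesIn Q y).ncard := by
          calc _ ≤ ∑ S ∈ (univ : Finset (Finset (Fin (n + 1)))).erase ∅, η₂ * (primesIn Q y).ncard :=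
                sum_le_sum hsmall
            _ ≤ ∑ S : Finset (Fin (n + 1)), η₂ * (primesIn Q y).ncard :=
                sum_le_sum_of_subset_of_nonneg (erase_subset _ _) (fun _ _ _ => by positivity)
            _ = 2 ^ (n + 1) * (η₂ * (primesIn Q y).ncard) := by
                rw [sum_const, card_univ, Fintype.card_finset, Fintype.card_fin, nsmul_eq_mul]
                push_cast
                ring
            _ = _ := by
                rw [hη₂def]
                field_simp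
        linarith
    have h31 : (2 * (X : ℝ) + 1) ^ n ≤ 3 ^ (n + 1) * (X : ℝ) ^ (n : ℝ) := by
      rw [Real.rpow_natCast]
      calc (2 * (X : ℝ) + 1) ^ n ≤ (3 * X) ^ n := pow_le_pow_left₀ (by positivity) (by linarith) _
        _ = 3 ^ n * (X : ℝ) ^ n := mul_pow _ _ _
        _ ≤ 3 ^ (n + 1) * (X : ℝ) ^ n := by
            refine mul_le_mul_of_nonneg_right ?_ (by positivity)
            exact pow_le_pow_right₀ (by norm_num) (by omega)
    have hxe : (X : ℝ) ^ (n : ℝ) * (X : ℝ) ^ e = (X : ℝ) ^ (n + e) := by rw [← Real.rpow_add hXp]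
    have hb1 : ∀ i ∈ (univ : Finset (Fin (n + 1))), ((T₁ i).card : ℝ) ≤ 3 ^ (n + 1) * C₁ * (X : ℝ) ^ (n + e) := by
      intro i _
      have h1 : ((T₁ i).card : ℝ) ≤ ((Icc (-(X : ℤ)) X).card : ℝ) ^ n * (C₁ * (X : ℝ) ^ e) := by
        refine fiber_count n i _ _ _ ?_ ?_
        · intro m hm j
          rw [hT₁] at hm
          exact hIm m (mem_filter.1 hm).1 j
        · intro o
          have h2 := hS₁ X ((X : ℝ) ^ θ) (Real.one_le_rpow hX1 hθ.le)
            ((Icc (-(X : ℤ)) X).filter (fun z => (i.insertNth z o : Fin (n + 1) → ℤ) ∈ T₁ i)) (by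
              intro z hz
              rw [hT₁] at hz
              rw [mem_filter] at hz
              have hz2 := mem_filter.1 hz.2
              have hz3 := (hT _ hz2.1).1 i
              have hz4 := hz2.2
              rw [Fin.insertNth_apply_same] at hz3 hz4
              exact ⟨hz3.1, hz3.2, disc z, disc_spec hz3.1, hz4⟩)
          refine h2.trans (le_of_eq ?_)
          rw [mul_assoc, ← Real.rpow_add hXp]
          congr 2
          rw [hθdef, he₁def]
          ring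
      rw [hIc] at h1
      calc ((T₁ i).card : ℝ) ≤ (2 * X + 1) ^ n * (C₁ * (X : ℝ) ^ e) := h1
        _ ≤ (3 ^ (n + 1) * (X : ℝ) ^ (n : ℝ)) * (C₁ * (X : ℝ) ^ e) :=
            mul_le_mul_of_nonneg_right h31 (by positivity)
        _ = 3 ^ (n + 1) * C₁ * ((X : ℝ) ^ (n : ℝ) * (X : ℝ) ^ e) := by ring
        _ = _ := by rw [hxe]
    have hb2 : ∀ S ∈ (univ : Finset (Finset (Fin (n + 1)))).erase ∅,
        ((T₂ S).card : ℝ) ≤ 3 ^ (n + 1) * K₀ * (X : ℝ) ^ (n + e) := by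
      intro S hS
      obtain ⟨i₀, hi₀⟩ := nonempty_iff_ne_empty.2 (mem_erase.1 hS).1
      have h1 : ((T₂ S).card : ℝ) ≤ ((Icc (-(X : ℤ)) X).card : ℝ) ^ n * (K₀ * (X : ℝ) ^ e) := by
        refine fiber_count n i₀ _ _ _ ?_ ?_
        · intro m hm j
          rw [hT₂] at hm
          exact hIm m (mem_filter.1 hm).1 j
        · intro o
          obtain ⟨D, hD⟩ : ∃ D : ℤ, D = ∏ i ∈ S.erase i₀, disc ((i₀.insertNth (1 : ℤ) o : Fin (n + 1) → ℤ) i) :=
            ⟨_, rfl⟩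
          refine hT₀ D X hX _ ?_
          intro z hz
          rw [mem_filter] at hz
          obtain ⟨-, hz1⟩ := hz
          rw [hT₂] at hz1
          obtain ⟨hz2, hz3, y, hy1, hy2, hy3⟩ := mem_filter.1 hz1
          have hz4 := (hT _ hz2).1 i₀
          have hz5 := hz3 i₀
          rw [Fin.insertNth_apply_same] at hz4 hz5
          refine ⟨hz4.1, hz4.2, disc z, disc_spec hz4.1, hz5, y, hy1, hy2, ?_⟩
          have e1 : ∏ i ∈ S, disc ((i₀.insertNth z o : Fin (n + 1) → ℤ) i) = D * disc z := by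
            rw [← Finset.prod_erase_mul _ _ hi₀, Fin.insertNth_apply_same, hD]
            congr 1
            refine prod_congr rfl fun i hi => ?_
            have hne : i ≠ i₀ := (mem_erase.1 hi).1
            obtain ⟨j, rfl⟩ := Fin.exists_succAbove_eq hne
            rw [Fin.insertNth_apply_succAbove, Fin.insertNth_apply_succAbove]
          unfold jS at hy3
          rw [e1] at hy3
          exact hy3
      rw [hIc] at h1
      calc ((T₂ S).card : ℝ) ≤ (2 * X + 1) ^ n * (K₀ * (X : ℝ) ^ e) := h1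
        _ ≤ (3 ^ (n + 1) * (X : ℝ) ^ (n : ℝ)) * (K₀ * (X : ℝ) ^ e) :=
            mul_le_mul_of_nonneg_right h31 (by positivity)
        _ = 3 ^ (n + 1) * K₀ * ((X : ℝ) ^ (n : ℝ) * (X : ℝ) ^ e) := by ring
        _ = _ := by rw [hxe]
    have h1 := (card_le_card hsub).trans (card_union_le _ _)
    have h2 : (T.card : ℝ) ≤ (univ.biUnion T₁).card +
        ((((univ : Finset (Finset (Fin (n + 1)))).erase ∅).biUnion T₂).card : ℝ) := by exact_mod_cast h1
    have h3 : ((univ.biUnion T₁).card : ℝ) ≤ ((n + 1 : ℕ) : ℝ) * (3 ^ (n + 1) * C₁ * (X : ℝ) ^ (n + e)) := by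
      have e1 : ((univ.biUnion T₁).card : ℝ) ≤ ∑ i : Fin (n + 1), ((T₁ i).card : ℝ) := by
        exact_mod_cast card_biUnion_le
      refine e1.trans ((sum_le_card_nsmul _ _ _ hb1).trans (le_of_eq ?_))
      rw [card_univ, Fintype.card_fin, nsmul_eq_mul]
    have h4 : ((((univ : Finset (Finset (Fin (n + 1)))).erase ∅).biUnion T₂).card : ℝ) ≤
        2 ^ (n + 1) * (3 ^ (n + 1) * K₀ * (X : ℝ) ^ (n + e)) := by
      have e1 : ((((univ : Finset (Finset (Fin (n + 1)))).erase ∅).biUnion T₂).card : ℝ) ≤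
          ∑ S ∈ (univ : Finset (Finset (Fin (n + 1)))).erase ∅, ((T₂ S).card : ℝ) := by
        exact_mod_cast card_biUnion_le
      refine e1.trans ((sum_le_card_nsmul _ _ _ hb2).trans ?_)
      rw [nsmul_eq_mul]
      refine mul_le_mul_of_nonneg_right ?_ (by positivity)
      have e4 : ((univ : Finset (Finset (Fin (n + 1)))).erase ∅).card ≤ 2 ^ (n + 1) := by
        refine (card_le_card (erase_subset _ _)).trans ?_
        rw [card_univ, Fintype.card_finset, Fintype.card_fin]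
      exact_mod_cast e4
    have h5 : (T.card : ℝ) ≤ G * (X : ℝ) ^ (n + e) := by
      rw [hG]
      nlinarith
    have h6 : (0 : ℝ) ≤ (2 * X₀ + 1) ^ (n + 1) * (X : ℝ) ^ (n + e) := by positivity
    nlinarith

end Pool.Agent.U265.MS
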